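import Mathlib

set_option autoImplicit false

namespace Pool.Agent.Helper606.CA

open Complex Set

/-- The line `{a + t u : t real}` (with `u ≠ 0`) supports `C`: it meets `C`, and `C` lies in one of
its two closed half-planes. -/
def Supports (a u : ℂ) (C : Set ℂ) : Prop :=
  (∃ t : ℝ, a + t * u ∈ C) ∧
    ((∀ c ∈ C, 0 ≤ ((starRingEnd ℂ) u * (c - a)).im) ∨
      (∀ c ∈ C, ((starRingEnd ℂ) u * (c - a)).im ≤ 0))

/-- A table: a plane convex body. -/
structure IsTable (T : Set ℂ) : Prop where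
  compact : IsCompact T
  convex : Convex ℝ T
  interior_nonempty : (interior T).Nonempty

/-- `γ` is a (counterclockwise, if `κ > 0`) arc length parametrisation, of period `L`, of the
boundary of `T`, with tangent direction `e^{iψ}` and curvature `κ = ψ'`. -/
structure BoundaryCurve (T : Set ℂ) (γ : ℝ → ℂ) (ψ κ : ℝ → ℝ) (L : ℝ) : Prop where
  L_pos : 0 < L
  periodic : ∀ s, γ (s + L) = γ s
  inj : InjOn γ (Ico 0 L)
  range_eq : range γ = frontier T
  deriv_γ : ∀ s, HasDerivAt γ (exp (ψ s * I)) s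
  deriv_ψ : ∀ s, HasDerivAt ψ (κ s) s

/-- `x 0, …, x n` are the vertices of a billiard path with `n` segments inside `T`: consecutive
vertices are distinct, and each inner vertex is a boundary point `γ s` at which the path is
reflected by the usual rule (the unit direction after the vertex is the mirror image, in the tangent
line of direction `e^{iψ s}`, of the unit direction before it). -/
structure IsBilliardPath (T : Set ℂ) (γ : ℝ → ℂ) (ψ : ℝ → ℝ) (n : ℕ) (x : ℕ → ℂ) : Prop where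
  mem : ∀ i ≤ n, x i ∈ T
  ne : ∀ i < n, x i ≠ x (i + 1)
  reflect : ∀ i, i + 1 < n → ∃ s : ℝ, x (i + 1) = γ s ∧
    (x (i + 2) - x (i + 1)) / (‖x (i + 2) - x (i + 1)‖ : ℂ) =
      exp (2 * ψ s * I) * (starRingEnd ℂ) ((x (i + 1) - x i) / (‖x (i + 1) - x i‖ : ℂ))

/-- Convex caustic. -/
structure IsConvexCaustic (T : Set ℂ) (γ : ℝ → ℂ) (ψ : ℝ → ℝ) (C : Set ℂ) : Prop where
  compact : IsCompact C
  convex : Convex ℝ C
  interior_nonempty : (interior C).Nonempty
  subset : C ⊆ interior T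
  invariant : ∀ (n : ℕ) (x : ℕ → ℂ), 1 ≤ n → IsBilliardPath T γ ψ n x →
    Supports (x 0) (x 1 - x 0) C → ∀ i < n, Supports (x i) (x (i + 1) - x i) C

/-- The statement `P(m)` of the problem. -/
def PP (m : ℕ) : Prop :=
  ∀ (T : Set ℂ) (γ : ℝ → ℂ) (ψ κ : ℝ → ℝ) (L : ℝ), IsTable T → BoundaryCurve T γ ψ κ L →
    ContDiff ℝ m κ → (∀ s, 0 < κ s) → ∃ C, IsConvexCaustic T γ ψ C

end Pool.Agent.Helper606.CA
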