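import Mathlib
import Pool.Agent.Helper606.CA.Stmt

set_option autoImplicit false

namespace Pool.Agent.Helper606.CA

open Complex Set

/-! ### working definitions -/

/-- Curvature functions closing up to a centrally symmetric closed curve of length `2 P`. -/
structure Closed (κ : ℝ → ℝ) (P : ℝ) : Prop where
  P_pos : 0 < P
  cont : Continuous κ
  pos : ∀ s, 0 < κ s
  per : ∀ s, κ (s + P) = κ s
  total : ∫ s in (0:ℝ)..P, κ s = Real.pi

noncomputable def psi (κ : ℝ → ℝ) (s : ℝ) : ℝ := ∫ u in (0:ℝ)..s, κ u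

noncomputable def gam (κ : ℝ → ℝ) (s : ℝ) : ℂ := ∫ u in (0:ℝ)..s, exp ((psi κ u : ℂ) * I)

/-- signed height of `z` above the oriented line through `gam κ s` with direction `e^{iφ}` -/
noncomputable def ht (κ : ℝ → ℝ) (φ s : ℝ) (z : ℂ) : ℝ :=
  (exp (-((φ : ℂ) * I)) * (z - gam κ s)).im

def Tab (κ : ℝ → ℝ) : Set ℂ := {z | ∀ s, 0 ≤ ht κ (psi κ s) s z}

/-- the angle at which `c` is seen from `gam κ s`, relative to the tangent direction -/
noncomputable def ang (κ : ℝ → ℝ) (s : ℝ) (c : ℂ) : ℝ :=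
  arg (exp (-((psi κ s : ℂ) * I)) * (c - gam κ s))

structure IsAngle (κ : ℝ → ℝ) (C : Set ℂ) (θ : ℝ → ℝ) : Prop where
  pos : ∀ s, 0 < θ s
  lt : ∀ s, θ s < Real.pi / 2
  lower : ∀ s, ∀ c ∈ C, θ s ≤ ang κ s c
  upper : ∀ s, ∀ c ∈ C, ang κ s c ≤ Real.pi - θ s
  attl : ∀ s, ∃ c ∈ C, ang κ s c = θ s
  attu : ∀ s, ∃ c ∈ C, ang κ s c = Real.pi - θ s
  above : ∀ s, ∀ c ∈ C, 0 < ht κ (psi κ s) s c

/-- abstract circular arc of total turning `A`, angle function `t` in the angle coordinate -/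
structure ArcFP (t : ℝ → ℝ) (A : ℝ) : Prop where
  nonneg : 0 ≤ A
  pos : ∀ a, 0 ≤ a → a ≤ A → 0 < t a
  lt_iff : ∀ a b, 0 ≤ a → a < b → b ≤ A → (b - a < 2 * t a ↔ b - a < 2 * t b)
  le_iff : ∀ a b, 0 ≤ a → a < b → b ≤ A → (b - a ≤ 2 * t a ↔ b - a ≤ 2 * t b)

noncomputable def ramp (x : ℝ) : ℝ := max 0 (min x 1)

noncomputable def ww (j : ℕ) : ℝ := if j = 0 then 1 - (1/2:ℝ)^20 else (1/2:ℝ)^j

noncomputable def pp (j : ℕ) : ℝ := 3/2 - (1/2:ℝ)^(j+1)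

noncomputable def tt (j : ℕ) : ℝ := (1/2:ℝ)^(3*j+22)

/-- nondecreasing continuous staircase: `2^{-20}` on `(-∞,1]`, `2 - 2^{-j}` on
`[pp j + tt j, pp (j+1)]`, `2` on `[3/2,∞)`. -/
noncomputable def ff (s : ℝ) : ℝ := (1/2:ℝ)^20 + ∑' j : ℕ, ww j * ramp ((s - pp j) / tt j)

noncomputable def hh : ℝ := 3/2 + (Real.pi/2 - ∫ s in (0:ℝ)..(3/2), ff s) / 2

/-- the curvature of the table -/
noncomputable def kap (s : ℝ) : ℝ := ff ‖(s : AddCircle (2*hh))‖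

end Pool.Agent.Helper606.CA
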