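import Pool.Agent.Helper606.CA.Defs

set_option autoImplicit false

namespace Pool.Agent.Helper606.CA
open Complex Set


theorem ang_mem {κ : ℝ → ℝ} {s : ℝ} {z : ℂ} (hz : 0 < ht κ (psi κ s) s z) :
    0 < ang κ s z ∧ ang κ s z < Real.pi := by
  unfold ht at hz
  unfold ang
  generalize exp (-((psi κ s : ℂ) * I)) * (z - gam κ s) = w at hz ⊢
  constructor
  · have h1 : 0 ≤ arg w := Complex.arg_nonneg_iff.2 hz.le
    rcases h1.lt_or_eq with h | h
    · exact h
    · exfalso
      have h2 := (Complex.arg_eq_zero_iff.1 h.symm).2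
      rw [h2] at hz
      exact lt_irrefl _ hz
  · refine lt_of_le_of_ne (Complex.arg_le_pi w) ?_
    intro h
    have h2 := (Complex.arg_eq_pi_iff.1 h).2
    rw [h2] at hz
    exact lt_irrefl _ hz

end Pool.Agent.Helper606.CA
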