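import Pool.Agent.Helper606.CA.Defs

set_option autoImplicit false

namespace Pool.Agent.Helper606.CA
open Complex Set


theorem ang_polar (κ : ℝ → ℝ) (s : ℝ) (z : ℂ) :
    z = gam κ s + ‖z - gam κ s‖ * exp (((psi κ s + ang κ s z : ℝ) : ℂ) * I) := by
  set w : ℂ := exp (-((psi κ s : ℂ) * I)) * (z - gam κ s) with hw
  have hang : ang κ s z = arg w := rfl
  have hnorm : ‖w‖ = ‖z - gam κ s‖ := by
    rw [hw, norm_mul, Complex.norm_exp]
    simp
  have h1 : (‖w‖ : ℂ) * exp (arg w * I) = w := Complex.norm_mul_exp_arg_mul_I w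
  have h2 : exp (((psi κ s + ang κ s z : ℝ) : ℂ) * I) = exp ((psi κ s : ℂ) * I) * exp (arg w * I) := by
    rw [← Complex.exp_add, hang]
    congr 1
    push_cast
    ring
  have h3 : exp ((psi κ s : ℂ) * I) * w = z - gam κ s := by
    rw [hw, ← mul_assoc, ← Complex.exp_add]
    simp
  rw [h2, ← hnorm]
  have h4 : (‖w‖ : ℂ) * (exp ((psi κ s : ℂ) * I) * exp (arg w * I)) = z - gam κ s := by
    rw [← h3]
    conv_rhs => rw [← h1]
    ring
  rw [h4]
  ring

end Pool.Agent.Helper606.CA
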