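import Pool.Agent.Helper606.CA.Defs

set_option autoImplicit false

namespace Pool.Agent.Helper606.CA
open Complex Set


theorem ht_polar (κ : ℝ → ℝ) (φ s : ℝ) (z : ℂ) :
    ht κ φ s z = ‖z - gam κ s‖ * Real.sin (ang κ s z - (φ - psi κ s)) := by
  have key : exp (-((φ : ℂ) * I)) * (z - gam κ s)
      = ((‖z - gam κ s‖ : ℝ) : ℂ) * exp (((ang κ s z - (φ - psi κ s) : ℝ) : ℂ) * I) := by
    have hw : ‖exp (-((psi κ s : ℂ) * I)) * (z - gam κ s)‖ = ‖z - gam κ s‖ := by
      rw [norm_mul]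
      have : exp (-((psi κ s : ℂ) * I)) = exp (((-(psi κ s) : ℝ) : ℂ) * I) := by
        congr 1; push_cast; ring
      rw [this, Complex.norm_exp_ofReal_mul_I, one_mul]
    have h1 := Complex.norm_mul_exp_arg_mul_I (exp (-((psi κ s : ℂ) * I)) * (z - gam κ s))
    rw [hw] at h1
    have h2 : exp (-((φ : ℂ) * I)) * (z - gam κ s)
        = exp ((((psi κ s - φ : ℝ)) : ℂ) * I) *
          (exp (-((psi κ s : ℂ) * I)) * (z - gam κ s)) := by
      rw [← mul_assoc, ← Complex.exp_add]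
      congr 2
      push_cast; ring
    rw [h2, ← h1]
    have h3 : exp (((ang κ s z - (φ - psi κ s) : ℝ) : ℂ) * I)
        = exp ((((psi κ s - φ : ℝ)) : ℂ) * I) * exp ((ang κ s z : ℂ) * I) := by
      rw [← Complex.exp_add]
      congr 1
      push_cast; ring
    rw [h3]
    unfold ang
    ring
  unfold ht
  rw [key, Complex.im_ofReal_mul, Complex.exp_ofReal_mul_I_im]

end Pool.Agent.Helper606.CA
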