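import Pool.Agent.Helper606.CA.Defs
import Pool.Agent.Helper606.CA.P_ht_polar
import Pool.Agent.Helper606.CA.P_ang_mem
import Pool.Agent.Helper606.CA.P_ang_polar

set_option autoImplicit false

namespace Pool.Agent.Helper606.CA
open Complex Set


theorem ang_minmax {κ : ℝ → ℝ} {C : Set ℂ} (s : ℝ) (hC : IsCompact C) (hint : (interior C).Nonempty)
    (hz : ∀ z ∈ C, 0 < ht κ (psi κ s) s z) :
    ∃ a b : ℝ, 0 < a ∧ a < b ∧ b < Real.pi ∧ (∀ c ∈ C, a ≤ ang κ s c ∧ ang κ s c ≤ b) ∧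
      (∃ c ∈ C, ang κ s c = a) ∧ (∃ c ∈ C, ang κ s c = b) := by
  have hne : C.Nonempty := hint.mono interior_subset
  have hcont : ContinuousOn (ang κ s) C := by
    intro z hzC
    apply ContinuousAt.continuousWithinAt
    unfold ang
    have hsl : exp (-((psi κ s : ℂ) * I)) * (z - gam κ s) ∈ slitPlane := by
      rw [mem_slitPlane_iff]
      right
      exact (hz z hzC).ne'
    have h2 : ContinuousAt (fun c : ℂ => exp (-((psi κ s : ℂ) * I)) * (c - gam κ s)) z := by
      fun_prop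
    exact ContinuousAt.comp (g := arg) (Complex.continuousAt_arg hsl) h2
  obtain ⟨ca, hca, hmin⟩ := hC.exists_isMinOn hne hcont
  obtain ⟨cb, hcb, hmax⟩ := hC.exists_isMaxOn hne hcont
  refine ⟨ang κ s ca, ang κ s cb, (ang_mem (hz ca hca)).1, ?_, (ang_mem (hz cb hcb)).2, ?_,
    ⟨ca, hca, rfl⟩, ⟨cb, hcb, rfl⟩⟩
  · by_contra hcon
    push Not at hcon
    have hall : ∀ c ∈ C, ang κ s c = ang κ s ca := by
      intro c hc
      have h1 : ang κ s ca ≤ ang κ s c := hmin hc
      have h2 : ang κ s c ≤ ang κ s cb := hmax hc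
      linarith
    have hzero : ∀ c ∈ C, ht κ (psi κ s + ang κ s ca) s c = 0 := by
      intro c hc
      rw [ht_polar, hall c hc]
      simp
    obtain ⟨c0, hc0⟩ := hint
    obtain ⟨r, hr, hball⟩ := Metric.isOpen_iff.1 isOpen_interior c0 hc0
    have hsub : Metric.ball c0 r ⊆ C := hball.trans interior_subset
    obtain ⟨φ, hφ⟩ : ∃ φ : ℝ, φ = psi κ s + ang κ s ca := ⟨_, rfl⟩
    rw [← hφ] at hzero
    have h1 := hzero c0 (hsub (Metric.mem_ball_self hr))
    have hmem : c0 + ((r / 2 : ℝ) : ℂ) * (I * exp ((φ : ℂ) * I)) ∈ Metric.ball c0 r := by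
      rw [Metric.mem_ball, dist_eq_norm, add_sub_cancel_left, norm_mul, norm_mul,
        Complex.norm_real, Complex.norm_I, Complex.norm_exp_ofReal_mul_I, Real.norm_eq_abs,
        abs_of_pos (half_pos hr)]
      linarith
    have h2 := hzero _ (hsub hmem)
    unfold ht at h1 h2
    have h3 : exp (-((φ : ℂ) * I)) *
        (c0 + ((r / 2 : ℝ) : ℂ) * (I * exp ((φ : ℂ) * I)) - gam κ s) =
        exp (-((φ : ℂ) * I)) * (c0 - gam κ s) + ((r / 2 : ℝ) : ℂ) * I := by
      have h4 : exp (-((φ : ℂ) * I)) * exp ((φ : ℂ) * I) = 1 := by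
        rw [← Complex.exp_add]
        simp
      linear_combination ((r / 2 : ℝ) : ℂ) * I * h4
    rw [h3, Complex.add_im, h1] at h2
    simp at h2
    linarith
  · intro c hc
    exact ⟨hmin hc, hmax hc⟩

end Pool.Agent.Helper606.CA
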