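import Pool.Agent.Helper606.CA.Defs
import Pool.Agent.Helper606.CA.P_ht_polar
import Pool.Agent.Helper606.CA.P_ang_mem

set_option autoImplicit false

namespace Pool.Agent.Helper606.CA
open Complex Set


theorem bwd_le {κ : ℝ → ℝ} {C : Set ℂ} {θ : ℝ → ℝ} (h : IsAngle κ C θ) {s β : ℝ} (hβ : 0 < β)
    (hβ' : β < Real.pi) : (∀ c ∈ C, 0 ≤ ht κ (psi κ s - β) s c) ↔ β ≤ θ s := by
  have hpol : ∀ c, ht κ (psi κ s - β) s c = ‖c - gam κ s‖ * Real.sin (ang κ s c + β) := by
    intro c
    rw [ht_polar]
    congr 2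
    ring
  constructor
  · intro hall
    obtain ⟨c, hc, hang⟩ := h.attu s
    by_contra hcon
    rw [not_le] at hcon
    have h1 := hall c hc
    rw [hpol, hang] at h1
    have h2 := h.above s c hc
    rw [ht_polar, sub_self, sub_zero] at h2
    have hn : 0 < ‖c - gam κ s‖ := by
      rcases (norm_nonneg (c - gam κ s)).eq_or_lt with h3 | h3
      · rw [← h3, zero_mul] at h2
        exact absurd h2 (lt_irrefl 0)
      · exact h3
    have h3 : Real.sin (Real.pi - θ s + β) = Real.sin (θ s - β) := by
      rw [show Real.pi - θ s + β = Real.pi - (θ s - β) by ring, Real.sin_pi_sub]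
    rw [h3] at h1
    have h4 : Real.sin (θ s - β) < 0 := by
      apply Real.sin_neg_of_neg_of_neg_pi_lt
      · linarith
      · have := h.pos s
        linarith
    have h5 : ‖c - gam κ s‖ * Real.sin (θ s - β) < 0 := mul_neg_of_pos_of_neg hn h4
    linarith
  · intro hle c hc
    rw [hpol]
    apply mul_nonneg (norm_nonneg _)
    have h1 := (ang_mem (h.above s c hc)).1
    have h2 := h.upper s c hc
    apply Real.sin_nonneg_of_nonneg_of_le_pi
    · linarith
    · linarith

end Pool.Agent.Helper606.CA
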