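import Pool.Agent.Helper606.CA.Defs
import Pool.Agent.Helper606.CA.P_ht_polar
import Pool.Agent.Helper606.CA.P_ang_mem

set_option autoImplicit false

namespace Pool.Agent.Helper606.CA
open Complex Set


theorem fwd_le {κ : ℝ → ℝ} {C : Set ℂ} {θ : ℝ → ℝ} (h : IsAngle κ C θ) {s β : ℝ} (hβ : 0 < β)
    (hβ' : β < Real.pi) : (∀ c ∈ C, 0 ≤ ht κ (psi κ s + β) s c) ↔ β ≤ θ s := by
  have hpol : ∀ c, ht κ (psi κ s + β) s c = ‖c - gam κ s‖ * Real.sin (ang κ s c - β) := by
    intro c
    rw [ht_polar]
    congr 2
    ring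
  constructor
  · intro H
    obtain ⟨c, hc, hce⟩ := h.attl s
    have h1 := H c hc
    rw [hpol, hce] at h1
    have h2 : 0 < ‖c - gam κ s‖ := by
      rw [norm_pos_iff]
      intro h0
      have h3 := h.above s c hc
      rw [ht, h0] at h3
      simp at h3
    by_contra hlt
    push Not at hlt
    have h4 : Real.sin (θ s - β) < 0 := by
      apply Real.sin_neg_of_neg_of_neg_pi_lt
      · linarith
      · have := h.pos s
        linarith
    have h5 := mul_neg_of_pos_of_neg h2 h4
    linarith
  · intro H c hc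
    rw [hpol]
    apply mul_nonneg (norm_nonneg _)
    have h1 := h.lower s c hc
    have h2 := (ang_mem (h.above s c hc)).2
    apply Real.sin_nonneg_of_nonneg_of_le_pi
    · linarith
    · linarith

end Pool.Agent.Helper606.CA
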