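import Pool.Agent.Helper606.CA.Defs

set_option autoImplicit false

namespace Pool.Agent.Helper606.CA
open Complex Set


theorem ht_add (κ : ℝ → ℝ) (φ s s' : ℝ) (z : ℂ) :
    ht κ φ s z = ht κ φ s' z + ht κ φ s (gam κ s') := by
  unfold ht
  rw [← Complex.add_im]
  congr 1
  ring

end Pool.Agent.Helper606.CA
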