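import Pool.Agent.Helper606.CA.Defs

set_option autoImplicit false

namespace Pool.Agent.Helper606.CA
open Complex Set


theorem psi_deriv {κ : ℝ → ℝ} (hc : Continuous κ) (s : ℝ) : HasDerivAt (psi κ) (κ s) s :=
  (hc.integral_hasStrictDerivAt 0 s).hasDerivAt

end Pool.Agent.Helper606.CA
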