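import Pool.Agent.Helper606.CA.Defs
import Pool.Agent.Helper606.CA.P_psi_deriv

set_option autoImplicit false

namespace Pool.Agent.Helper606.CA
open Complex Set


theorem gam_deriv {κ : ℝ → ℝ} (hc : Continuous κ) (s : ℝ) :
    HasDerivAt (gam κ) (exp ((psi κ s : ℂ) * I)) s := by
  have h1 : Continuous (psi κ) := by
    rw [continuous_iff_continuousAt]
    intro u
    exact (psi_deriv hc u).continuousAt
  have h2 : Continuous (fun u => exp ((psi κ u : ℂ) * I)) := by fun_prop
  exact intervalIntegral.integral_hasDerivAt_right (h2.intervalIntegrable _ _)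
    (h2.stronglyMeasurableAtFilter _ _) h2.continuousAt

end Pool.Agent.Helper606.CA
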