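import Pool.Agent.Helper606.CA.Defs
import Pool.Agent.Helper606.CA.P_psi_deriv
import Pool.Agent.Helper606.CA.P_gam_deriv

set_option autoImplicit false

namespace Pool.Agent.Helper606.CA
open Complex Set


theorem ht_int {κ : ℝ → ℝ} (hc : Continuous κ) (φ s s' : ℝ) :
    ht κ φ s (gam κ s') = ∫ u in s..s', Real.sin (psi κ u - φ) := by
  have hpsi : Continuous (psi κ) :=
    continuous_iff_continuousAt.mpr fun u => (psi_deriv hc u).continuousAt
  have hd : ∀ u : ℝ, HasDerivAt (fun u => ht κ φ s (gam κ u)) (Real.sin (psi κ u - φ)) u := by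
    intro u
    have h1 : HasDerivAt (fun u : ℝ => exp (-((φ : ℂ) * I)) * (gam κ u - gam κ s))
        (exp (-((φ : ℂ) * I)) * exp ((psi κ u : ℂ) * I)) u :=
      ((gam_deriv hc u).sub_const (gam κ s)).const_mul _
    have h2 := (Complex.imCLM.hasFDerivAt (x := exp (-((φ : ℂ) * I)) * (gam κ u - gam κ s))).comp_hasDerivAt u h1
    have h3 : Complex.imCLM (exp (-((φ : ℂ) * I)) * exp ((psi κ u : ℂ) * I)) =
        Real.sin (psi κ u - φ) := by
      rw [← Complex.exp_add]
      have : -((φ : ℂ) * I) + (psi κ u : ℂ) * I = ((psi κ u - φ : ℝ) : ℂ) * I := by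
        push_cast; ring
      rw [this, Complex.imCLM_apply, Complex.exp_ofReal_mul_I_im]
    rw [h3] at h2
    exact h2
  have hcont : Continuous (fun u => Real.sin (psi κ u - φ)) :=
    Real.continuous_sin.comp (hpsi.sub continuous_const)
  rw [intervalIntegral.integral_eq_sub_of_hasDerivAt (fun u _ => hd u)
    (hcont.intervalIntegrable s s')]
  simp [ht]

end Pool.Agent.Helper606.CA
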