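import Pool.Agent.Helper606.CA.Defs
import Pool.Agent.Helper606.CA.P_psi_deriv

set_option autoImplicit false

namespace Pool.Agent.Helper606.CA
open Complex Set


theorem psi_mono {κ : ℝ → ℝ} (hc : Continuous κ) (hp : ∀ s, 0 < κ s) : StrictMono (psi κ) := by
  apply strictMono_of_deriv_pos
  intro s
  rw [(psi_deriv hc s).deriv]
  exact hp s

end Pool.Agent.Helper606.CA
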