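import Pool.Agent.Helper606.CA.Defs
import Pool.Agent.Helper606.CA.P_psi_deriv
import Pool.Agent.Helper606.CA.P_psi_mono
import Pool.Agent.Helper606.CA.P_ht_int
import Pool.Agent.Helper606.CA.P_ht_add
import Pool.Agent.Helper606.CA.P_fwd_le
import Pool.Agent.Helper606.CA.P_bwd_le

set_option autoImplicit false

namespace Pool.Agent.Helper606.CA
open Complex Set


theorem angle_lip {κ : ℝ → ℝ} {C : Set ℂ} {θ : ℝ → ℝ} (hc : Continuous κ) (hp : ∀ s, 0 < κ s)
    (h : IsAngle κ C θ) {s s' : ℝ} (h1 : s < s') : |θ s' - θ s| ≤ psi κ s' - psi κ s := by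
  have hm := psi_mono hc hp
  have hpi := Real.pi_pos
  have hs := hm h1
  have hlo : ∀ u ∈ Icc s s', psi κ s ≤ psi κ u ∧ psi κ u ≤ psi κ s' := fun u hu =>
    ⟨hm.monotone hu.1, hm.monotone hu.2⟩
  have t1 := h.pos s
  have t2 := h.lt s
  have t3 := h.pos s'
  have t4 := h.lt s'
  have p1 : psi κ s + θ s ≤ psi κ s' + θ s' := by
    rcases le_or_gt (psi κ s + θ s) (psi κ s') with hle | hgt
    · linarith
    · have hβ : 0 < psi κ s + θ s - psi κ s' := by linarith
      have hβ' : psi κ s + θ s - psi κ s' < Real.pi := by linarith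
      have hb := (fwd_le h hβ hβ').1 (by
        intro c hcC
        have e : psi κ s' + (psi κ s + θ s - psi κ s') = psi κ s + θ s := by ring
        rw [e]
        have e1 := ht_add κ (psi κ s + θ s) s s' c
        have e2 := (fwd_le h t1 (by linarith)).2 le_rfl c hcC
        have e3 : 0 ≤ ∫ u in s..s', -Real.sin (psi κ u - (psi κ s + θ s)) := by
          apply intervalIntegral.integral_nonneg h1.le
          intro u hu
          obtain ⟨a1, a2⟩ := hlo u hu
          have := Real.sin_nonpos_of_nonpos_of_neg_pi_le
            (x := psi κ u - (psi κ s + θ s)) (by linarith) (by linarith)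
          linarith
        rw [intervalIntegral.integral_neg, ← ht_int hc] at e3
        linarith)
      linarith
  have p2 : psi κ s - θ s ≤ psi κ s' - θ s' := by
    rcases le_or_gt (psi κ s) (psi κ s' - θ s') with hle | hgt
    · linarith
    · have hβ : 0 < psi κ s - (psi κ s' - θ s') := by linarith
      have hβ' : psi κ s - (psi κ s' - θ s') < Real.pi := by linarith
      have hb := (bwd_le h hβ hβ').1 (by
        intro c hcC
        have e : psi κ s - (psi κ s - (psi κ s' - θ s')) = psi κ s' - θ s' := by ring
        rw [e]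
        have e1 := ht_add κ (psi κ s' - θ s') s s' c
        have e2 := (bwd_le h t3 (by linarith)).2 le_rfl c hcC
        have e3 : 0 ≤ ∫ u in s..s', Real.sin (psi κ u - (psi κ s' - θ s')) := by
          apply intervalIntegral.integral_nonneg h1.le
          intro u hu
          obtain ⟨a1, a2⟩ := hlo u hu
          exact Real.sin_nonneg_of_nonneg_of_le_pi (by linarith) (by linarith)
        rw [← ht_int hc] at e3
        linarith)
      linarith
  rw [abs_le]
  constructor <;> linarith

end Pool.Agent.Helper606.CA
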