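import Pool.Agent.Helper606.CA.Defs

set_option autoImplicit false

namespace Pool.Agent.Helper606.CA
open Complex Set


theorem arc_step {t : ℝ → ℝ} {A : ℝ} (h : ArcFP t A) {a : ℝ} (ha : 0 ≤ a) (haA : a ≤ A)
    (hA : a + 2 * t a ≤ A) :
    t (a + 2 * t a) = t a := by
  have hp := h.pos a ha haA
  have h1 := h.lt_iff a (a + 2 * t a) ha (by linarith) hA
  have h2 := h.le_iff a (a + 2 * t a) ha (by linarith) hA
  have h3 : a + 2 * t a - a ≤ 2 * t (a + 2 * t a) := h2.1 (by linarith)
  have h4 : 2 * t (a + 2 * t a) ≤ a + 2 * t a - a := by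
    by_contra hcon
    push Not at hcon
    have h5 := h1.2 hcon
    linarith
  linarith

end Pool.Agent.Helper606.CA
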