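import Pool.Agent.Helper606.CA.Defs
import Pool.Agent.Helper606.CA.P_arc_step

set_option autoImplicit false

namespace Pool.Agent.Helper606.CA
open Complex Set


theorem arc_end_iter {t : ℝ → ℝ} {A : ℝ} (h : ArcFP t A) (n : ℕ) :
    2 * (n:ℝ) * t 0 ≤ A → t (2 * (n:ℝ) * t 0) = t 0 := by
  have h0 : 0 < t 0 := h.pos 0 le_rfl h.nonneg
  induction n with
  | zero => intro _; simp
  | succ n ih =>
    intro hn
    have hn' : 2 * ((n:ℝ) + 1) * t 0 ≤ A := by exact_mod_cast hn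
    have hle : 2 * (n:ℝ) * t 0 ≤ A := by nlinarith
    have e := ih hle
    have hnn : 0 ≤ 2 * (n:ℝ) * t 0 := by positivity
    have hs := arc_step h (a := 2 * (n:ℝ) * t 0) hnn hle (by rw [e]; linarith)
    rw [e] at hs
    have e2 : 2 * ((n + 1 : ℕ) : ℝ) * t 0 = 2 * (n:ℝ) * t 0 + 2 * t 0 := by
      push_cast; ring
    rw [e2]
    exact hs

theorem arc_end {t : ℝ → ℝ} {A : ℝ} (h : ArcFP t A) (hA : 2 * t 0 ≤ A) : t A < 2 * t 0 := by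
  have h0 : 0 < t 0 := h.pos 0 le_rfl h.nonneg
  have h20 : 0 < 2 * t 0 := by linarith
  have hq : 0 ≤ A / (2 * t 0) := div_nonneg h.nonneg h20.le
  have hfl : ((⌊A / (2 * t 0)⌋₊ : ℕ) : ℝ) ≤ A / (2 * t 0) := Nat.floor_le hq
  have hfu : A / (2 * t 0) < ((⌊A / (2 * t 0)⌋₊ : ℕ) : ℝ) + 1 := Nat.lt_floor_add_one _
  have h1 : 1 ≤ ⌊A / (2 * t 0)⌋₊ := by
    apply Nat.le_floor
    rw [Nat.cast_one, le_div_iff₀ h20]
    linarith
  obtain ⟨m, hm⟩ : ∃ m : ℕ, ⌊A / (2 * t 0)⌋₊ = m + 1 := ⟨⌊A / (2 * t 0)⌋₊ - 1, by omega⟩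
  rw [hm] at hfl hfu
  push_cast at hfl hfu
  rw [le_div_iff₀ h20] at hfl
  rw [div_lt_iff₀ h20] at hfu
  have hle : 2 * (m:ℝ) * t 0 ≤ A := by nlinarith
  have e := arc_end_iter h m hle
  have hnn : 0 ≤ 2 * (m:ℝ) * t 0 := by positivity
  have hlt : 2 * (m:ℝ) * t 0 < A := by nlinarith
  have hiff := h.lt_iff (2 * (m:ℝ) * t 0) A hnn hlt le_rfl
  rw [e] at hiff
  have hno : ¬ (A - 2 * (m:ℝ) * t 0 < 2 * t 0) := by
    intro hc
    nlinarith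
  have hno2 : ¬ (A - 2 * (m:ℝ) * t 0 < 2 * t A) := fun hc => hno (hiff.mpr hc)
  push Not at hno2
  nlinarith

end Pool.Agent.Helper606.CA
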