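import Pool.Agent.Helper606.CA.Defs
import Pool.Agent.Helper606.CA.P_ht_polar
import Pool.Agent.Helper606.CA.P_ang_mem

set_option autoImplicit false

namespace Pool.Agent.Helper606.CA
open Complex Set


theorem bwd_lt {κ : ℝ → ℝ} {C : Set ℂ} {θ : ℝ → ℝ} (h : IsAngle κ C θ) {s β : ℝ} (hβ : 0 < β)
    (hβ' : β < Real.pi) : (∀ c ∈ C, 0 < ht κ (psi κ s - β) s c) ↔ β < θ s := by
  have hθ0 := h.pos s
  have hθ1 := h.lt s
  have key : ∀ c, ht κ (psi κ s - β) s c = ‖c - gam κ s‖ * Real.sin (ang κ s c + β) := by
    intro c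
    rw [ht_polar]
    congr 2
    ring
  have hne : ∀ c ∈ C, 0 < ‖c - gam κ s‖ := by
    intro c hc
    have h1 := h.above s c hc
    rw [norm_pos_iff]
    intro h0
    unfold ht at h1
    rw [h0] at h1
    simp at h1
  constructor
  · intro hall
    obtain ⟨c, hc, hca⟩ := h.attu s
    have h1 := hall c hc
    rw [key c, hca] at h1
    have h2 : 0 < Real.sin (Real.pi - θ s + β) := by
      by_contra hcon
      push Not at hcon
      have := mul_nonpos_of_nonneg_of_nonpos (hne c hc).le hcon
      linarith
    by_contra hlt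
    push Not at hlt
    have h3 : Real.sin (Real.pi - θ s + β) = - Real.sin (β - θ s) := by
      rw [show Real.pi - θ s + β = (β - θ s) + Real.pi by ring, Real.sin_add_pi]
    have h4 : 0 ≤ Real.sin (β - θ s) := by
      apply Real.sin_nonneg_of_nonneg_of_le_pi
      · linarith
      · linarith
    linarith
  · intro hlt c hc
    rw [key c]
    apply mul_pos (hne c hc)
    have h1 := h.lower s c hc
    have h2 := h.upper s c hc
    apply Real.sin_pos_of_pos_of_lt_pi
    · linarith
    · linarith

end Pool.Agent.Helper606.CA
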