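import Pool.Agent.Helper606.CA.Defs
import Pool.Agent.Helper606.CA.P_ht_polar
import Pool.Agent.Helper606.CA.P_ang_mem

set_option autoImplicit false

namespace Pool.Agent.Helper606.CA
open Complex Set


theorem fwd_lt {κ : ℝ → ℝ} {C : Set ℂ} {θ : ℝ → ℝ} (h : IsAngle κ C θ) {s β : ℝ} (hβ : 0 < β)
    (hβ' : β < Real.pi) : (∀ c ∈ C, 0 < ht κ (psi κ s + β) s c) ↔ β < θ s := by
  have hform : ∀ c, ht κ (psi κ s + β) s c = ‖c - gam κ s‖ * Real.sin (ang κ s c - β) := by
    intro c
    rw [ht_polar]
    congr 2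
    ring
  have hnorm : ∀ c ∈ C, 0 < ‖c - gam κ s‖ := by
    intro c hc
    rw [norm_pos_iff]
    intro h0
    have h1 := h.above s c hc
    unfold ht at h1
    rw [h0, mul_zero] at h1
    simp at h1
  constructor
  · intro hall
    by_contra hle
    push Not at hle
    obtain ⟨c, hc, hcθ⟩ := h.attl s
    have h1 := hall c hc
    rw [hform, hcθ] at h1
    have h2 : 0 < Real.sin (θ s - β) := (mul_pos_iff_of_pos_left (hnorm c hc)).1 h1
    have h3 : Real.sin (θ s - β) ≤ 0 := by
      apply Real.sin_nonpos_of_nonpos_of_neg_pi_le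
      · linarith
      · have := h.pos s
        linarith
    linarith
  · intro hlt c hc
    rw [hform]
    apply mul_pos (hnorm c hc)
    have h1 := h.lower s c hc
    have h2 := (ang_mem (h.above s c hc)).2
    apply Real.sin_pos_of_pos_of_lt_pi
    · linarith
    · linarith

end Pool.Agent.Helper606.CA
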