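import Pool.Agent.Helper606.CA.Defs
import Pool.Agent.Helper606.CA.P_psi_deriv

set_option autoImplicit false

namespace Pool.Agent.Helper606.CA
open Complex Set


theorem psi_arc {κ : ℝ → ℝ} (hc : Continuous κ) {k s1 s2 : ℝ} (harc : ∀ u ∈ Icc s1 s2, κ u = k)
    {s s' : ℝ} (h1 : s1 ≤ s) (h2 : s ≤ s') (h3 : s' ≤ s2) :
    psi κ s' = psi κ s + k * (s' - s) := by
  have hI : ∀ a b : ℝ, IntervalIntegrable κ MeasureTheory.volume a b := fun a b =>
    hc.intervalIntegrable a b
  have h4 : psi κ s' - psi κ s = ∫ u in s..s', κ u := by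
    unfold psi
    exact intervalIntegral.integral_interval_sub_left (hI 0 s') (hI 0 s)
  have h5 : ∫ u in s..s', κ u = ∫ u in s..s', k := by
    apply intervalIntegral.integral_congr
    intro u hu
    rw [Set.uIcc_of_le h2] at hu
    exact harc u ⟨h1.trans hu.1, hu.2.trans h3⟩
  rw [h5, intervalIntegral.integral_const, smul_eq_mul] at h4
  linarith [mul_comm (s' - s) k]

end Pool.Agent.Helper606.CA
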