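import Pool.Agent.Helper606.CA.Defs
import Pool.Agent.Helper606.CA.P_ht_int
import Pool.Agent.Helper606.CA.P_ht_add
import Pool.Agent.Helper606.CA.P_fwd_lt
import Pool.Agent.Helper606.CA.P_fwd_le
import Pool.Agent.Helper606.CA.P_bwd_lt
import Pool.Agent.Helper606.CA.P_bwd_le
import Pool.Agent.Helper606.CA.P_psi_arc

set_option autoImplicit false

namespace Pool.Agent.Helper606.CA
open Complex Set


theorem arc_fp_int {κ : ℝ → ℝ} (hc : Continuous κ) {k s1 s2 : ℝ} (hk : 0 < k)
    (harc : ∀ u ∈ Icc s1 s2, κ u = k) {s s' : ℝ} (h1 : s1 ≤ s) (h2 : s ≤ s') (h3 : s' ≤ s2) :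
    ht κ (psi κ s + k * (s' - s) / 2) s (gam κ s') = 0 := by
  rw [ht_int hc]
  have e : ∫ u in s..s', Real.sin (psi κ u - (psi κ s + k * (s' - s) / 2))
      = ∫ u in s..s', Real.sin (k * u - (k * s + k * (s' - s) / 2)) := by
    apply intervalIntegral.integral_congr
    intro u hu
    rw [Set.uIcc_of_le h2] at hu
    have := psi_arc hc harc h1 hu.1 (hu.2.trans h3)
    simp only [this]
    congr 1
    ring
  rw [e, intervalIntegral.integral_comp_mul_sub (fun x => Real.sin x) hk.ne', integral_sin]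
  have e1 : k * s - (k * s + k * (s' - s) / 2) = -(k * (s' - s) / 2) := by ring
  have e2 : k * s' - (k * s + k * (s' - s) / 2) = k * (s' - s) / 2 := by ring
  rw [e1, e2, Real.cos_neg, sub_self, smul_zero]

theorem arc_fp_ht {κ : ℝ → ℝ} (hc : Continuous κ) {k s1 s2 : ℝ} (hk : 0 < k)
    (harc : ∀ u ∈ Icc s1 s2, κ u = k) {s s' : ℝ} (h1 : s1 ≤ s) (h2 : s ≤ s') (h3 : s' ≤ s2)
    (c : ℂ) : ht κ (psi κ s + k * (s' - s) / 2) s c = ht κ (psi κ s' - k * (s' - s) / 2) s' c := by
  rw [ht_add κ _ s s' c, arc_fp_int hc hk harc h1 h2 h3, add_zero]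
  have := psi_arc hc harc h1 h2 h3
  rw [this]
  congr 1
  ring

theorem arc_fp {κ : ℝ → ℝ} {C : Set ℂ} {θ : ℝ → ℝ} (hc : Continuous κ) (hp : ∀ s, 0 < κ s)
    (h : IsAngle κ C θ) {k s1 s2 : ℝ} (hk : 0 < k) (h12 : s1 ≤ s2)
    (harc : ∀ u ∈ Icc s1 s2, κ u = k) (hlt : k * (s2 - s1) < 2 * Real.pi) :
    ArcFP (fun a => θ (s1 + a / k)) (k * (s2 - s1)) := by
  have main : ∀ a b, 0 ≤ a → a < b → b ≤ k * (s2 - s1) →
      s1 ≤ s1 + a / k ∧ s1 + a / k ≤ s1 + b / k ∧ s1 + b / k ≤ s2 ∧
      k * ((s1 + b / k) - (s1 + a / k)) / 2 = (b - a) / 2 ∧ 0 < (b - a) / 2 ∧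
      (b - a) / 2 < Real.pi := by
    intro a b ha hab hb
    have h1 : 0 ≤ a / k := div_nonneg ha hk.le
    have h2 : a / k ≤ b / k := (div_le_div_iff_of_pos_right hk).2 hab.le
    have h3 : b / k ≤ s2 - s1 := by
      rw [div_le_iff₀ hk]
      linarith
    have h4 : k * ((s1 + b / k) - (s1 + a / k)) = b - a := by
      field_simp
      ring
    refine ⟨by linarith, by linarith, by linarith, by rw [h4], by linarith, by linarith⟩
  constructor
  · exact mul_nonneg hk.le (by linarith)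
  · intro a _ _
    exact h.pos _
  · intro a b ha hab hb
    obtain ⟨h1, h2, h3, h4, h5, h6⟩ := main a b ha hab hb
    have hf := fwd_lt h (s := s1 + a / k) h5 h6
    have hb' := bwd_lt h (s := s1 + b / k) h5 h6
    have e : ∀ c : ℂ, ht κ (psi κ (s1 + a / k) + (b - a) / 2) (s1 + a / k) c
        = ht κ (psi κ (s1 + b / k) - (b - a) / 2) (s1 + b / k) c := by
      intro c
      have := arc_fp_ht hc hk harc h1 h2 h3 c
      rwa [h4] at this
    simp only [e] at hf
    have := hf.symm.trans hb'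
    constructor
    · intro hx
      have := this.1 (by linarith)
      show b - a < 2 * θ (s1 + b / k)
      linarith
    · intro hx
      have hx' : b - a < 2 * θ (s1 + b / k) := hx
      have := this.2 (by linarith)
      show b - a < 2 * θ (s1 + a / k)
      linarith
  · intro a b ha hab hb
    obtain ⟨h1, h2, h3, h4, h5, h6⟩ := main a b ha hab hb
    have hf := fwd_le h (s := s1 + a / k) h5 h6
    have hb' := bwd_le h (s := s1 + b / k) h5 h6
    have e : ∀ c : ℂ, ht κ (psi κ (s1 + a / k) + (b - a) / 2) (s1 + a / k) c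
        = ht κ (psi κ (s1 + b / k) - (b - a) / 2) (s1 + b / k) c := by
      intro c
      have := arc_fp_ht hc hk harc h1 h2 h3 c
      rwa [h4] at this
    simp only [e] at hf
    have := hf.symm.trans hb'
    constructor
    · intro hx
      have hx' : b - a ≤ 2 * θ (s1 + a / k) := hx
      have := this.1 (by linarith)
      show b - a ≤ 2 * θ (s1 + b / k)
      linarith
    · intro hx
      have hx' : b - a ≤ 2 * θ (s1 + b / k) := hx
      have := this.2 (by linarith)
      show b - a ≤ 2 * θ (s1 + a / k)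
      linarith

end Pool.Agent.Helper606.CA
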