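import Pool.Agent.Helper606.CA.Defs
import Pool.Agent.Helper606.CA.P_arc_step

set_option autoImplicit false

namespace Pool.Agent.Helper606.CA
open Complex Set


theorem arc_mono {t : ℝ → ℝ} {A : ℝ} (h : ArcFP t A) {a b : ℝ} (ha : 0 ≤ a) (hab : a < b)
    (hbA : b ≤ A) (hA : b + 2 * t b ≤ A) : a + 2 * t a < b + 2 * t b := by
  have hb : 0 ≤ b := by linarith
  have htb : 0 < t b := h.pos b hb hbA
  have hstep : t (b + 2 * t b) = t b := arc_step h hb hbA hA
  by_contra hcon
  have h1 : (b + 2 * t b) - a ≤ 2 * t a := by linarith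
  have h2 := (h.le_iff a (b + 2 * t b) ha (by linarith) hA).1 h1
  rw [hstep] at h2
  linarith

/-- `arc_step` itself, proved -/
theorem arc_step' {t : ℝ → ℝ} {A : ℝ} (h : ArcFP t A) {a : ℝ} (ha : 0 ≤ a) (haA : a ≤ A)
    (hA : a + 2 * t a ≤ A) :
    t (a + 2 * t a) = t a := by
  have hta : 0 < t a := h.pos a ha haA
  have h1 := (h.le_iff a (a + 2 * t a) ha (by linarith) hA).1 (by linarith)
  have h2 : ¬ ((a + 2 * t a) - a < 2 * t (a + 2 * t a)) := by
    intro h3
    have h4 := (h.lt_iff a (a + 2 * t a) ha (by linarith) hA).2 h3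
    linarith
  linarith

end Pool.Agent.Helper606.CA
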