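import Pool.Agent.Helper606.CA.Defs
import Pool.Agent.Helper606.CA.P_arc_step
import Pool.Agent.Helper606.CA.P_arc_mono

set_option autoImplicit false

namespace Pool.Agent.Helper606.CA
open Complex Set


theorem arc_iter {t : ℝ → ℝ} {A : ℝ} (h : ArcFP t A) (N : ℕ) {a b : ℝ} (ha : 0 ≤ a) (hab : a < b)
    (hbA : b ≤ A)
    (hA : b + 2 * N * t b ≤ A) : a + 2 * N * t a < b + 2 * N * t b := by
  induction N generalizing a b with
  | zero => simpa using hab
  | succ N ih =>
    have hpb := h.pos b (by linarith) hbA
    have hN : (0 : ℝ) ≤ N := Nat.cast_nonneg N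
    push_cast at hA ⊢
    have h1 : b + 2 * t b ≤ A := by nlinarith [mul_nonneg hN hpb.le]
    have htb : t (b + 2 * t b) = t b := arc_step h (by linarith) hbA h1
    have hmono := arc_mono h ha hab hbA h1
    have hpa := h.pos a ha (by linarith)
    have hta : t (a + 2 * t a) = t a := arc_step h ha (by linarith) (by linarith)
    have h2 := ih (a := a + 2 * t a) (b := b + 2 * t b) (by linarith) hmono h1 (by rw [htb]; linarith)
    rw [hta, htb] at h2
    linarith

end Pool.Agent.Helper606.CA
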