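import Pool.Agent.Helper606.CA.Defs

set_option autoImplicit false

namespace Pool.Agent.Helper606.CA
open Complex Set


theorem arc_rev {t : ℝ → ℝ} {A : ℝ} (h : ArcFP t A) : ArcFP (fun a => t (A - a)) A := by
  refine ⟨h.nonneg, ?_, ?_, ?_⟩
  · intro a ha0 haA
    exact h.pos (A - a) (by linarith) (by linarith)
  · intro a b ha hab hb
    have h1 := h.lt_iff (A - b) (A - a) (by linarith) (by linarith) (by linarith)
    have e : A - a - (A - b) = b - a := by ring
    rw [e] at h1
    exact h1.symm
  · intro a b ha hab hb
    have h1 := h.le_iff (A - b) (A - a) (by linarith) (by linarith) (by linarith)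
    have e : A - a - (A - b) = b - a := by ring
    rw [e] at h1
    exact h1.symm

end Pool.Agent.Helper606.CA
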