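import Pool.Agent.Helper606.CA.Defs
import Pool.Agent.Helper606.CA.P_arc_iter
import Pool.Agent.Helper606.CA.P_arc_rev

set_option autoImplicit false

namespace Pool.Agent.Helper606.CA
open Complex Set


theorem arc_left {t : ℝ → ℝ} {A : ℝ} (h : ArcFP t A) {N : ℕ} (hN : 1 ≤ N) {x : ℝ} (hx : 0 < x)
    (hA : 2 * N * t A + x ≤ A) : t A - x / (2 * N) ≤ t (A - x) := by
  have hN' : (1:ℝ) ≤ N := by exact_mod_cast hN
  have h2N : (0:ℝ) < 2 * N := by linarith
  by_cases hc : x + 2 * N * t (A - x) ≤ A
  · have hxA : x ≤ A := by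
      have := h.pos A h.nonneg le_rfl
      nlinarith
    have h1 := arc_iter (arc_rev h) N (a := 0) (b := x) le_rfl hx hxA hc
    simp only [sub_zero, zero_add] at h1
    have h2 : t A - x / (2 * N) = (2 * N * t A - x) / (2 * N) := by
      field_simp
    rw [h2, div_le_iff₀ h2N]
    nlinarith
  · push Not at hc
    have h3 : 2 * N * t A < 2 * N * t (A - x) := by linarith
    have h4 : t A < t (A - x) := lt_of_mul_lt_mul_left h3 h2N.le
    have h5 : 0 ≤ x / (2 * N) := by positivity
    linarith

end Pool.Agent.Helper606.CA
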