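import Pool.Agent.Helper606.CA.Defs
import Pool.Agent.Helper606.CA.P_arc_step
import Pool.Agent.Helper606.CA.P_arc_iter

set_option autoImplicit false

namespace Pool.Agent.Helper606.CA
open Complex Set


theorem arc_right {t : ℝ → ℝ} {A : ℝ} (h : ArcFP t A) {N : ℕ} (hN : 1 ≤ N) {a : ℝ} (ha : 0 ≤ a)
    (ha' : a < 2 * t 0) (hA : 2 * (N + 1) * t 0 ≤ A) :
    t a < t 0 + (2 * t 0 - a) / (2 * N) := by
  have hN1 : (1:ℝ) ≤ (N:ℝ) := by exact_mod_cast hN
  have h0 : 0 < t 0 := h.pos 0 le_rfl h.nonneg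
  have h2 : 2 * t 0 ≤ A := by nlinarith
  have h3 := arc_step h (le_refl (0:ℝ)) h.nonneg (by rw [zero_add]; exact h2)
  rw [zero_add] at h3
  have h4 := arc_iter h N ha ha' h2 (by rw [h3]; linarith)
  rw [h3] at h4
  have h5 : t a - t 0 < (2 * t 0 - a) / (2 * N) := by
    rw [lt_div_iff₀ (by positivity)]
    linarith
  linarith

end Pool.Agent.Helper606.CA
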