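import Pool.Agent.Helper606.CA.Defs
import Pool.Agent.Helper606.CA.P_ht_int
import Pool.Agent.Helper606.CA.P_ht_add
import Pool.Agent.Helper606.CA.P_ht_polar
import Pool.Agent.Helper606.CA.P_fwd_le
import Pool.Agent.Helper606.CA.P_angle_lip
import Pool.Agent.Helper606.CA.P_psi_arc

set_option autoImplicit false

namespace Pool.Agent.Helper606.CA
open Complex Set


theorem fb_psi_cont {κ : ℝ → ℝ} (hc : Continuous κ) : Continuous (psi κ) := by
  unfold psi
  exact intervalIntegral.continuous_primitive (fun a b => hc.intervalIntegrable a b) 0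

theorem flat_bound {κ : ℝ → ℝ} {C : Set ℂ} {θ : ℝ → ℝ} (hc : Continuous κ) (hp : ∀ s, 0 < κ s)
    (h : IsAngle κ C θ) {D k q p : ℝ} (hD : ∀ c ∈ C, ‖c - gam κ p‖ ≤ D) (hk : 0 < k)
    (hqp : q < p) (harc : ∀ u ∈ Icc q p, κ u = k) :
    θ p ≤ 2 * k * (p - q) + Real.pi * D * k := by
  have hpi := Real.pi_pos
  have hpsi : ∀ u ∈ Icc q p, psi κ u = psi κ q + k * (u - q) := fun u hu =>
    psi_arc hc harc le_rfl hu.1 hu.2
  have hΔ : psi κ p - psi κ q = k * (p - q) := by
    rw [hpsi p ⟨hqp.le, le_rfl⟩]; ring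
  have hlip := angle_lip hc hp h hqp
  rw [hΔ] at hlip
  obtain ⟨hl1, hl2⟩ := abs_le.1 hlip
  obtain ⟨c, hcC, hcang⟩ := h.attl p
  have hr := hD c hcC
  have hr0 : 0 ≤ ‖c - gam κ p‖ := norm_nonneg _
  have hD0 : 0 ≤ D := hr0.trans hr
  have hΔ0 : 0 < k * (p - q) := mul_pos hk (by linarith)
  have hpDk : 0 ≤ Real.pi * D * k := by positivity
  rcases le_or_gt (θ q) (k * (p - q)) with hcase | hcase
  · linarith
  · have hθ0 := h.pos q
    have hθ1 := h.lt q
    have h0 := (fwd_le h hθ0 (by linarith)).2 le_rfl c hcC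
    rw [ht_add κ (psi κ q + θ q) q p c, ht_polar κ (psi κ q + θ q) p c, hcang] at h0
    have hy : θ p - (psi κ q + θ q - psi κ p) = θ p - θ q + k * (p - q) := by
      rw [← hΔ]; ring
    rw [hy] at h0
    have hy0 : 0 ≤ θ p - θ q + k * (p - q) := by linarith
    have hsin1 : ‖c - gam κ p‖ * Real.sin (θ p - θ q + k * (p - q)) ≤ D * (2 * (k * (p - q))) := by
      calc ‖c - gam κ p‖ * Real.sin (θ p - θ q + k * (p - q))
          ≤ ‖c - gam κ p‖ * (2 * (k * (p - q))) := by
            refine mul_le_mul_of_nonneg_left ?_ hr0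
            exact (Real.sin_le hy0).trans (by linarith)
        _ ≤ D * (2 * (k * (p - q))) := mul_le_mul_of_nonneg_right hr (by positivity)
    have hint : ht κ (psi κ q + θ q) q (gam κ p) ≤ -((p - q) * Real.sin (θ q - k * (p - q))) := by
      rw [ht_int hc]
      have e : -((p - q) * Real.sin (θ q - k * (p - q)))
          = ∫ u in q..p, -Real.sin (θ q - k * (p - q)) := by
        rw [intervalIntegral.integral_const, smul_eq_mul]; ring
      rw [e]
      refine intervalIntegral.integral_mono_on hqp.le ?_ ?_ ?_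
      · apply Continuous.intervalIntegrable
        exact Real.continuous_sin.comp ((fb_psi_cont hc).sub continuous_const)
      · exact continuous_const.intervalIntegrable _ _
      · intro u hu
        rw [hpsi u hu]
        have e1 : psi κ q + k * (u - q) - (psi κ q + θ q) = -(θ q - k * (u - q)) := by ring
        rw [e1, Real.sin_neg]
        apply neg_le_neg
        have h1 : 0 ≤ k * (u - q) := mul_nonneg hk.le (by linarith [hu.1])
        have h2 : k * (u - q) ≤ k * (p - q) := mul_le_mul_of_nonneg_left (by linarith [hu.2]) hk.le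
        exact Real.sin_le_sin_of_le_of_le_pi_div_two (by linarith) (by linarith) (by linarith)
    have h3 : (p - q) * Real.sin (θ q - k * (p - q)) ≤ (p - q) * (2 * D * k) := by
      have : D * (2 * (k * (p - q))) = (p - q) * (2 * D * k) := by ring
      linarith
    have h4 : Real.sin (θ q - k * (p - q)) ≤ 2 * D * k :=
      le_of_mul_le_mul_left h3 (by linarith)
    have h5 := Real.mul_le_sin (x := θ q - k * (p - q)) (by linarith) (by linarith)
    have h6 : 2 / Real.pi * (θ q - k * (p - q)) ≤ 2 * D * k := h5.trans h4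
    have h7 : θ q - k * (p - q) ≤ Real.pi * D * k := by
      have h8 : (2 / Real.pi * (θ q - k * (p - q))) * (Real.pi / 2) ≤ (2 * D * k) * (Real.pi / 2) :=
        mul_le_mul_of_nonneg_right h6 (by positivity)
      have e1 : (2 / Real.pi * (θ q - k * (p - q))) * (Real.pi / 2) = θ q - k * (p - q) := by
        field_simp
      have e2 : (2 * D * k) * (Real.pi / 2) = Real.pi * D * k := by ring
      rw [e1, e2] at h8
      exact h8
    linarith

end Pool.Agent.Helper606.CA
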