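import Pool.Agent.Helper606.CA.Defs

set_option autoImplicit false

namespace Pool.Agent.Helper606.CA
open Complex Set


theorem pp_facts : (∀ j, 0 < tt j) ∧ (∀ i j : ℕ, i < j → pp i + tt i < pp j) ∧
    (∀ j, 1 ≤ pp j ∧ pp j + tt j < 3/2) := by
  have hlt : ∀ a b : ℕ, a < b → (1/2:ℝ)^b < (1/2:ℝ)^a := fun a b h =>
    pow_lt_pow_right_of_lt_one₀ (by norm_num) (by norm_num) h
  have hle : ∀ a b : ℕ, a ≤ b → (1/2:ℝ)^b ≤ (1/2:ℝ)^a := fun a b h =>
    pow_le_pow_of_le_one (by norm_num) (by norm_num) h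
  refine ⟨fun j => by unfold tt; positivity, ?_, ?_⟩
  · intro i j hij
    unfold pp tt
    have h1 := hle (i + 2) (j + 1) (by omega)
    have h2 := hlt (i + 2) (3 * i + 22) (by omega)
    have h3 : (1/2:ℝ)^(i+1) = 2 * (1/2:ℝ)^(i+2) := by ring
    linarith
  · intro j
    unfold pp tt
    have h1 := hle 1 (j + 1) (by omega)
    have h2 := hlt (j + 1) (3 * j + 22) (by omega)
    constructor
    · norm_num at h1 ⊢
      linarith
    · linarith

end Pool.Agent.Helper606.CA
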