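import Pool.Agent.Helper606.CA.Defs

set_option autoImplicit false

namespace Pool.Agent.Helper606.CA
open Complex Set


theorem ramp_facts : Continuous ramp ∧ Monotone ramp ∧ (∀ x, 0 ≤ ramp x ∧ ramp x ≤ 1) ∧
    (∀ x, x ≤ 0 → ramp x = 0) ∧ (∀ x, 1 ≤ x → ramp x = 1) := by
  refine ⟨?_, ?_, ?_, ?_, ?_⟩
  · unfold ramp
    exact continuous_const.max (continuous_id.min continuous_const)
  · intro x y hxy
    unfold ramp
    exact max_le_max le_rfl (min_le_min hxy le_rfl)
  · intro x
    unfold ramp
    exact ⟨le_max_left _ _, max_le zero_le_one (min_le_right _ _)⟩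
  · intro x hx
    unfold ramp
    exact max_eq_left ((min_le_left _ _).trans hx)
  · intro x hx
    unfold ramp
    rw [min_eq_right hx]
    exact max_eq_right zero_le_one

end Pool.Agent.Helper606.CA
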