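import Pool.Agent.Helper606.CA.Defs
import Pool.Agent.Helper606.CA.P_ramp_facts
import Pool.Agent.Helper606.CA.P_pp_facts

set_option autoImplicit false

namespace Pool.Agent.Helper606.CA
open Complex Set


theorem ff_low {s : ℝ} (h : s ≤ 1) : ff s = (1/2:ℝ)^20 := by
  unfold ff
  have h0 : ∀ j : ℕ, ww j * ramp ((s - pp j) / tt j) = 0 := by
    intro j
    have h1 := (pp_facts.2.2 j).1
    have h2 := pp_facts.1 j
    have h3 : (s - pp j) / tt j ≤ 0 := div_nonpos_of_nonpos_of_nonneg (by linarith) h2.le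
    rw [ramp_facts.2.2.2.1 _ h3, mul_zero]
  rw [tsum_congr h0, tsum_zero, add_zero]

end Pool.Agent.Helper606.CA
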