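import Pool.Agent.Helper606.CA.Defs

set_option autoImplicit false

namespace Pool.Agent.Helper606.CA
open Complex Set


theorem ww_facts : (∀ j, 0 < ww j) ∧ (∀ j, ww j ≤ (1/2:ℝ)^j) ∧ Summable ww ∧
    (∀ n : ℕ, ∑ j ∈ Finset.range (n+1), ww j = 2 - (1/2:ℝ)^n - (1/2:ℝ)^20) ∧
    ∑' j, ww j = 2 - (1/2:ℝ)^20 := by
  have hpos : ∀ j, 0 < ww j := by
    intro j
    unfold ww
    split_ifs
    · norm_num
    · positivity
  have hle : ∀ j, ww j ≤ (1/2:ℝ)^j := by
    intro j
    unfold ww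
    split_ifs with h
    · subst h
      norm_num
    · exact le_rfl
  have hsum : Summable ww :=
    Summable.of_nonneg_of_le (fun j => (hpos j).le) hle summable_geometric_two
  have hpart : ∀ n : ℕ, ∑ j ∈ Finset.range (n+1), ww j = 2 - (1/2:ℝ)^n - (1/2:ℝ)^20 := by
    intro n
    induction n with
    | zero =>
      rw [Finset.sum_range_one]
      unfold ww
      rw [if_pos rfl]
      norm_num
    | succ n ih =>
      rw [Finset.sum_range_succ, ih]
      unfold ww
      rw [if_neg (Nat.succ_ne_zero n)]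
      ring
  refine ⟨hpos, hle, hsum, hpart, ?_⟩
  have h1 : Filter.Tendsto (fun n : ℕ => ∑ j ∈ Finset.range (n+1), ww j) Filter.atTop
      (nhds (∑' j, ww j)) :=
    (hsum.hasSum.tendsto_sum_nat).comp (Filter.tendsto_add_atTop_nat 1)
  have h2 : Filter.Tendsto (fun n : ℕ => 2 - (1/2:ℝ)^n - (1/2:ℝ)^20) Filter.atTop
      (nhds (2 - 0 - (1/2:ℝ)^20)) :=
    (tendsto_const_nhds.sub (tendsto_pow_atTop_nhds_zero_of_lt_one (by norm_num) (by norm_num))).sub
      tendsto_const_nhds
  have h3 := tendsto_nhds_unique h1 (by simpa only [hpart] using h2)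
  rw [h3]
  ring

end Pool.Agent.Helper606.CA
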