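import Pool.Agent.Helper606.CA.Defs
import Pool.Agent.Helper606.CA.P_ramp_facts
import Pool.Agent.Helper606.CA.P_ww_facts

set_option autoImplicit false

namespace Pool.Agent.Helper606.CA
open Complex Set


theorem ff_summable (s : ℝ) : Summable (fun j : ℕ => ww j * ramp ((s - pp j) / tt j)) := by
  obtain ⟨h1, _, h3, _, _⟩ := ww_facts
  obtain ⟨_, _, h4, _, _⟩ := ramp_facts
  refine Summable.of_nonneg_of_le (fun j => mul_nonneg (h1 j).le (h4 _).1) (fun j => ?_) h3
  calc ww j * ramp ((s - pp j) / tt j) ≤ ww j * 1 :=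
        mul_le_mul_of_nonneg_left (h4 _).2 (h1 j).le
    _ = ww j := mul_one _

end Pool.Agent.Helper606.CA
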