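import Pool.Agent.Helper606.CA.Defs
import Pool.Agent.Helper606.CA.P_ramp_facts
import Pool.Agent.Helper606.CA.P_ww_facts
import Pool.Agent.Helper606.CA.P_pp_facts
import Pool.Agent.Helper606.CA.P_ff_summable

set_option autoImplicit false

namespace Pool.Agent.Helper606.CA
open Complex Set


theorem ff_mono : Monotone ff := by
  intro a b hab
  unfold ff
  have h := Summable.tsum_le_tsum (fun j : ℕ => (by
    apply mul_le_mul_of_nonneg_left _ (ww_facts.1 j).le
    apply ramp_facts.2.1
    exact div_le_div_of_nonneg_right (by linarith) (pp_facts.1 j).le :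
      ww j * ramp ((a - pp j) / tt j) ≤ ww j * ramp ((b - pp j) / tt j))) (ff_summable a) (ff_summable b)
  linarith

end Pool.Agent.Helper606.CA
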