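import Pool.Agent.Helper606.CA.Defs
import Pool.Agent.Helper606.CA.P_ramp_facts
import Pool.Agent.Helper606.CA.P_ww_facts
import Pool.Agent.Helper606.CA.P_pp_facts

set_option autoImplicit false

namespace Pool.Agent.Helper606.CA
open Complex Set


theorem ff_top {s : ℝ} (h : 3/2 ≤ s) : ff s = 2 := by

  have h1 : ∀ j, ramp ((s - pp j) / tt j) = 1 := by
    intro j
    apply ramp_facts.2.2.2.2
    rw [le_div_iff₀ (pp_facts.1 j), one_mul]
    have := (pp_facts.2.2 j).2
    linarith
  unfold ff
  simp only [h1, mul_one]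
  rw [ww_facts.2.2.2.2]
  ring

end Pool.Agent.Helper606.CA
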