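import Pool.Agent.Helper606.CA.Defs
import Pool.Agent.Helper606.CA.P_ff_mono
import Pool.Agent.Helper606.CA.P_ff_low
import Pool.Agent.Helper606.CA.P_ff_top

set_option autoImplicit false

namespace Pool.Agent.Helper606.CA
open Complex Set


theorem ff_bounds (s : ℝ) : (1/2:ℝ)^20 ≤ ff s ∧ ff s ≤ 2 := by
  constructor
  · have h1 : ff (min s 1) = (1/2:ℝ)^20 := ff_low (min_le_right s 1)
    have h2 : ff (min s 1) ≤ ff s := ff_mono (min_le_left s 1)
    rw [← h1]
    exact h2
  · have h1 : ff (max s (3/2)) = 2 := ff_top (le_max_right s (3/2))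
    have h2 : ff s ≤ ff (max s (3/2)) := ff_mono (le_max_left s (3/2))
    rw [← h1]
    exact h2

end Pool.Agent.Helper606.CA
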