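import Pool.Agent.Helper606.CA.Defs
import Pool.Agent.Helper606.CA.P_ramp_facts
import Pool.Agent.Helper606.CA.P_ww_facts

set_option autoImplicit false

namespace Pool.Agent.Helper606.CA
open Complex Set


theorem ff_cont : Continuous ff := by
  obtain ⟨hc, _, hb, _, _⟩ := ramp_facts
  obtain ⟨hw, _, hs, _, _⟩ := ww_facts
  unfold ff
  apply continuous_const.add
  apply continuous_tsum (u := ww)
  · intro j
    exact continuous_const.mul (hc.comp ((continuous_id.sub continuous_const).div_const _))
  · exact hs
  · intro j x
    rw [Real.norm_eq_abs, abs_mul, abs_of_pos (hw j), abs_of_nonneg (hb _).1]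
    exact mul_le_of_le_one_right (hw j).le (hb _).2

end Pool.Agent.Helper606.CA
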