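import Pool.Agent.Helper606.CA.Defs
import Pool.Agent.Helper606.CA.P_ff_cont
import Pool.Agent.Helper606.CA.P_ff_low
import Pool.Agent.Helper606.CA.P_ff_bounds

set_option autoImplicit false

namespace Pool.Agent.Helper606.CA
open Complex Set


theorem hh_bounds : 3/2 < hh ∧ hh < 23/10 := by
  have hi : ∀ a b : ℝ, IntervalIntegrable ff MeasureTheory.volume a b :=
    fun a b => ff_cont.intervalIntegrable a b
  have h0 : (0:ℝ) ≤ ∫ s in (0:ℝ)..(3/2), ff s := by
    apply intervalIntegral.integral_nonneg (by norm_num)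
    intro u _
    have := (ff_bounds u).1
    have h2 : (0:ℝ) < (1/2:ℝ)^20 := by positivity
    linarith
  have h1 : (∫ s in (0:ℝ)..1, ff s) = (1/2:ℝ)^20 := by
    have : (∫ s in (0:ℝ)..1, ff s) = ∫ s in (0:ℝ)..1, ((1/2:ℝ)^20) := by
      apply intervalIntegral.integral_congr
      intro s hs
      rw [Set.uIcc_of_le (by norm_num)] at hs
      exact ff_low hs.2
    rw [this]
    simp
  have h2 : (∫ s in (1:ℝ)..(3/2), ff s) ≤ 1 := by
    have : (∫ s in (1:ℝ)..(3/2), ff s) ≤ ∫ s in (1:ℝ)..(3/2), (2:ℝ) := by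
      apply intervalIntegral.integral_mono_on (by norm_num) (hi _ _) (by simp)
      intro s _
      exact (ff_bounds s).2
    refine this.trans ?_
    rw [intervalIntegral.integral_const]
    norm_num
  have h3 : (∫ s in (0:ℝ)..(3/2), ff s) = (∫ s in (0:ℝ)..1, ff s) + ∫ s in (1:ℝ)..(3/2), ff s :=
    (intervalIntegral.integral_add_adjacent_intervals (hi _ _) (hi _ _)).symm
  have hpi := Real.pi_gt_three
  have hpi2 := Real.pi_lt_d2
  have h20 : (1/2:ℝ)^20 < 1/10 := by norm_num
  unfold hh
  constructor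
  · rw [h3, h1]
    linarith
  · linarith

end Pool.Agent.Helper606.CA
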