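import Pool.Agent.Helper606.CA.Defs
import Pool.Agent.Helper606.CA.P_ff_cont
import Pool.Agent.Helper606.CA.P_ff_top
import Pool.Agent.Helper606.CA.P_hh_bounds

set_option autoImplicit false

namespace Pool.Agent.Helper606.CA
open Complex Set


theorem int_hh : ∫ s in (0:ℝ)..hh, ff s = Real.pi / 2 := by
  have h1 : ∫ s in (3/2:ℝ)..hh, ff s = 2 * (hh - 3/2) := by
    have h2 : ∫ s in (3/2:ℝ)..hh, ff s = ∫ _ in (3/2:ℝ)..hh, (2:ℝ) := by
      apply intervalIntegral.integral_congr
      intro s hs
      rw [Set.uIcc_of_le hh_bounds.1.le] at hs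
      exact ff_top hs.1
    rw [h2, intervalIntegral.integral_const, smul_eq_mul]
    ring
  have h3 := intervalIntegral.integral_add_adjacent_intervals
    (ff_cont.intervalIntegrable (μ := MeasureTheory.volume) 0 (3/2))
    (ff_cont.intervalIntegrable (μ := MeasureTheory.volume) (3/2) hh)
  rw [← h3, h1]
  have h4 : hh = 3/2 + (Real.pi/2 - ∫ s in (0:ℝ)..(3/2), ff s) / 2 := rfl
  linarith

end Pool.Agent.Helper606.CA
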