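import Pool.Agent.Helper606.CA.Defs
import Pool.Agent.Helper606.CA.P_ff_cont

set_option autoImplicit false

namespace Pool.Agent.Helper606.CA
open Complex Set


theorem kap_cont : Continuous kap :=
  ff_cont.comp (continuous_norm.comp (AddCircle.continuous_mk' (2 * hh)))

end Pool.Agent.Helper606.CA
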