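import Pool.Agent.Helper606.CA.Defs

set_option autoImplicit false

namespace Pool.Agent.Helper606.CA
open Complex Set


theorem kap_per (s : ℝ) : kap (s + 2 * hh) = kap s := by
  unfold kap
  have h : ((s + 2 * hh : ℝ) : AddCircle (2*hh)) = (s : AddCircle (2*hh)) :=
    AddCircle.coe_add_period (2*hh) s
  rw [h]

end Pool.Agent.Helper606.CA
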