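import Pool.Agent.Helper606.CA.Defs
import Pool.Agent.Helper606.CA.P_ff_cont
import Pool.Agent.Helper606.CA.P_ff_bounds
import Pool.Agent.Helper606.CA.P_hh_bounds
import Pool.Agent.Helper606.CA.P_int_hh
import Pool.Agent.Helper606.CA.P_kap_cont
import Pool.Agent.Helper606.CA.P_kap_eq
import Pool.Agent.Helper606.CA.P_kap_per

set_option autoImplicit false

namespace Pool.Agent.Helper606.CA
open Complex Set


theorem h267_tot : ∫ s in (0:ℝ)..(2 * hh), kap s = Real.pi := by
  have hh0 : 0 < hh := by
    have := hh_bounds.1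
    linarith
  have hper : Function.Periodic kap (2 * hh) := fun s => kap_per s
  have h1 : ∫ s in (0:ℝ)..(0 + 2 * hh), kap s = ∫ s in (-hh)..(-hh + 2 * hh), kap s :=
    hper.intervalIntegral_add_eq 0 (-hh)
  rw [zero_add] at h1
  have e1 : -hh + 2 * hh = hh := by ring
  rw [e1] at h1
  rw [h1]
  have hint : ∀ a b : ℝ, IntervalIntegrable kap MeasureTheory.volume a b :=
    fun a b => kap_cont.intervalIntegrable a b
  rw [← intervalIntegral.integral_add_adjacent_intervals (hint (-hh) 0) (hint 0 hh)]
  have h2 : ∫ s in (0:ℝ)..hh, kap s = ∫ s in (0:ℝ)..hh, ff s := by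
    apply intervalIntegral.integral_congr
    intro s hs
    rw [Set.uIcc_of_le hh0.le] at hs
    have : |s| = s := abs_of_nonneg hs.1
    show kap s = ff s
    rw [kap_eq (by rw [this]; exact hs.2), this]
  have h3 : ∫ s in (-hh)..0, kap s = ∫ s in (0:ℝ)..hh, ff s := by
    have h4 : ∫ s in (-hh)..0, kap s = ∫ s in (-hh)..0, ff (-s) := by
      apply intervalIntegral.integral_congr
      intro s hs
      rw [Set.uIcc_of_le (by linarith)] at hs
      have : |s| = -s := abs_of_nonpos hs.2
      show kap s = ff (-s)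
      rw [kap_eq (by rw [this]; linarith [hs.1]), this]
    rw [h4, intervalIntegral.integral_comp_neg (fun x => ff x)]
    simp
  rw [h2, h3, int_hh]
  ring

theorem kap_closed : Closed kap (2 * hh) := by
  refine ⟨?_, kap_cont, ?_, kap_per, h267_tot⟩
  · have := hh_bounds.1
    linarith
  · intro s
    unfold kap
    have h1 := (ff_bounds ‖(s : AddCircle (2*hh))‖).1
    have h2 : (0:ℝ) < (1/2:ℝ)^20 := by positivity
    exact lt_of_lt_of_le h2 h1

end Pool.Agent.Helper606.CA
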