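import Pool.Agent.Helper606.CA.Defs
import Pool.Agent.Helper606.CA.P_ff_low
import Pool.Agent.Helper606.CA.P_hh_bounds
import Pool.Agent.Helper606.CA.P_kap_eq

set_option autoImplicit false

namespace Pool.Agent.Helper606.CA
open Complex Set


theorem kap_low {s : ℝ} (h : |s| ≤ 1) : kap s = (1/2:ℝ)^20 := by
  rw [kap_eq (by linarith [hh_bounds.1]), ff_low h]

end Pool.Agent.Helper606.CA
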