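import Pool.Agent.Helper606.CA.Defs
import Pool.Agent.Helper606.CA.P_flat_bound
import Pool.Agent.Helper606.CA.P_hh_bounds
import Pool.Agent.Helper606.CA.P_kap_cont
import Pool.Agent.Helper606.CA.P_kap_closed
import Pool.Agent.Helper606.CA.P_kap_low

set_option autoImplicit false

namespace Pool.Agent.Helper606.CA
open Complex Set


theorem base {C : Set ℂ} {θ : ℝ → ℝ} (h : IsAngle kap C θ)
    (hC : ∀ c ∈ C, ‖c - gam kap 1‖ ≤ 2 * hh) : θ 1 ≤ (1/2:ℝ)^14 := by
  have h1 := flat_bound (D := 2 * hh) (k := (1/2:ℝ)^20) (q := -1) (p := 1) kap_cont kap_closed.pos h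
    hC (by positivity) (by norm_num) (fun u hu => kap_low (abs_le.2 hu))
  have h2 := hh_bounds
  have h3 : Real.pi < 3.15 := Real.pi_lt_d2
  have h4 : Real.pi * (2 * hh) ≤ 3.15 * (2 * (23/10)) := by
    apply mul_le_mul h3.le (by linarith) (by linarith) (by norm_num)
  have h5 : Real.pi * (2 * hh) * (1/2:ℝ)^20 ≤ 3.15 * (2 * (23/10)) * (1/2:ℝ)^20 :=
    mul_le_mul_of_nonneg_right h4 (by positivity)
  refine h1.trans ?_
  norm_num at h5 ⊢
  linarith

end Pool.Agent.Helper606.CA
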