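import Pool.Agent.Helper606.CA.Defs
import Pool.Agent.Helper606.CA.P_ht_add
import Pool.Agent.Helper606.CA.P_fwd_le
import Pool.Agent.Helper606.CA.P_bwd_le

set_option autoImplicit false

namespace Pool.Agent.Helper606.CA
open Complex Set


theorem cross_fp {κ : ℝ → ℝ} {C : Set ℂ} {θ : ℝ → ℝ} (h : IsAngle κ C θ) {p sL sR x x' : ℝ}
    (hx : 0 < x) (hx' : x < Real.pi) (hy : 0 < x') (hy' : x' < Real.pi)
    (hL : psi κ p - psi κ sL = x) (hR : psi κ sR - psi κ p = x')
    (hY : ht κ (psi κ p) p (gam κ sR) ≤ ht κ (psi κ p) p (gam κ sL)) (hθ : x ≤ θ sL) :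
    x' ≤ θ sR := by
  have h1 := (fwd_le h (s := sL) hx hx').2 hθ
  have e1 : psi κ sL + x = psi κ p := by linarith
  have e2 : psi κ sR - x' = psi κ p := by linarith
  rw [e1] at h1
  refine (bwd_le h (s := sR) hy hy').1 ?_
  rw [e2]
  intro c hc
  have h2 := h1 c hc
  -- heights relative to `p`
  have a1 := ht_add κ (psi κ p) p sL c
  have a2 := ht_add κ (psi κ p) p sR c
  linarith

end Pool.Agent.Helper606.CA
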