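import Pool.Agent.Helper606.CA.Defs
import Pool.Agent.Helper606.CA.P_ht_int
import Pool.Agent.Helper606.CA.P_psi_arc

set_option autoImplicit false

namespace Pool.Agent.Helper606.CA
open Complex Set


theorem height_left {κ : ℝ → ℝ} (hc : Continuous κ) {k p l : ℝ} (hk : 0 < k) (hl : 0 ≤ l)
    (harc : ∀ u ∈ Icc (p - l) p, κ u = k) :
    ht κ (psi κ p) p (gam κ (p - l)) = (1 - Real.cos (k * l)) / k := by
  rw [ht_int hc]
  have h1 : ∫ u in p..(p - l), Real.sin (psi κ u - psi κ p) =
      ∫ u in p..(p - l), Real.sin (k * (u - p)) := by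
    apply intervalIntegral.integral_congr
    intro u hu
    rw [Set.uIcc_of_ge (by linarith)] at hu
    have h := psi_arc hc harc hu.1 hu.2 le_rfl
    simp only
    congr 1
    rw [h]
    ring
  rw [h1]
  have h2 : ∀ u ∈ uIcc p (p - l),
      HasDerivAt (fun u => -Real.cos (k * (u - p)) / k) (Real.sin (k * (u - p))) u := by
    intro u _
    have h3 : HasDerivAt (fun u => k * (u - p)) k u := by
      simpa using ((hasDerivAt_id u).sub_const p).const_mul k
    have h4 := (h3.cos.neg).div_const k
    have h5 : HasDerivAt (fun u => -Real.cos (k * (u - p)) / k)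
        (-(-Real.sin (k * (u - p)) * k) / k) u := h4
    have e : -(-Real.sin (k * (u - p)) * k) / k = Real.sin (k * (u - p)) := by
      rw [div_eq_iff hk.ne']
      ring
    rwa [e] at h5
  rw [intervalIntegral.integral_eq_sub_of_hasDerivAt h2
    (Continuous.intervalIntegrable (by fun_prop) _ _)]
  have e1 : k * (p - l - p) = -(k * l) := by ring
  have e2 : k * (p - p) = 0 := by ring
  rw [e1, e2, Real.cos_neg, Real.cos_zero]
  ring

end Pool.Agent.Helper606.CA
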