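import Pool.Agent.Helper606.CA.Defs
import Pool.Agent.Helper606.CA.P_psi_deriv
import Pool.Agent.Helper606.CA.P_psi_mono
import Pool.Agent.Helper606.CA.P_ht_int
import Pool.Agent.Helper606.CA.P_psi_arc

set_option autoImplicit false

namespace Pool.Agent.Helper606.CA
open Complex Set


theorem height_right {κ : ℝ → ℝ} (hc : Continuous κ) (hp : ∀ s, 0 < κ s) {k p τ l : ℝ} (hk : 0 < k)
    (hτ : 0 ≤ τ) (hl : 0 ≤ l) (htr : ∀ u ∈ Icc p (p + τ), κ u ≤ k)
    (harc : ∀ u ∈ Icc (p + τ) (p + τ + l), κ u = k) (hsmall : k * τ ≤ 1) :
    ht κ (psi κ p) p (gam κ (p + τ + l)) ≤ k * τ ^ 2 +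
      (1 - Real.cos (psi κ (p + τ) - psi κ p + k * l)) / k := by
  have hpc : Continuous (psi κ) :=
    continuous_iff_continuousAt.2 fun s => (psi_deriv hc s).continuousAt
  have hsc : Continuous (fun u => Real.sin (psi κ u - psi κ p)) :=
    Real.continuous_sin.comp (hpc.sub continuous_const)
  rw [ht_int hc, ← intervalIntegral.integral_add_adjacent_intervals
    (hsc.intervalIntegrable p (p + τ)) (hsc.intervalIntegrable (p + τ) (p + τ + l))]
  have hpsub : ∀ u, psi κ u - psi κ p = ∫ v in p..u, κ v := by
    intro u
    unfold psi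
    rw [intervalIntegral.integral_interval_sub_left (hc.intervalIntegrable _ _)
      (hc.intervalIntegrable _ _)]
  have h1 : ∫ u in p..(p + τ), Real.sin (psi κ u - psi κ p) ≤ k * τ ^ 2 := by
    have h2 : ∫ u in p..(p + τ), Real.sin (psi κ u - psi κ p) ≤ ∫ _u in p..(p + τ), k * τ := by
      apply intervalIntegral.integral_mono_on (by linarith) (hsc.intervalIntegrable _ _)
        (continuous_const.intervalIntegrable _ _)
      intro u hu
      have h0 : 0 ≤ psi κ u - psi κ p := by
        have := (psi_mono hc hp).monotone hu.1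
        linarith
      have h3 : psi κ u - psi κ p ≤ k * (u - p) := by
        rw [hpsub]
        have h4 : ∫ v in p..u, κ v ≤ ∫ _v in p..u, k := by
          apply intervalIntegral.integral_mono_on hu.1 (hc.intervalIntegrable _ _)
            (continuous_const.intervalIntegrable _ _)
          intro v hv
          exact htr v ⟨hv.1, hv.2.trans hu.2⟩
        rw [intervalIntegral.integral_const, smul_eq_mul] at h4
        linarith
      have h5 : Real.sin (psi κ u - psi κ p) ≤ psi κ u - psi κ p := Real.sin_le h0
      have h6 : k * (u - p) ≤ k * τ := mul_le_mul_of_nonneg_left (by linarith [hu.2]) hk.le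
      linarith
    rw [intervalIntegral.integral_const, smul_eq_mul] at h2
    calc _ ≤ (p + τ - p) * (k * τ) := h2
      _ = k * τ ^ 2 := by ring
  have h7 : ∫ u in (p + τ)..(p + τ + l), Real.sin (psi κ u - psi κ p) ≤
      (1 - Real.cos (psi κ (p + τ) - psi κ p + k * l)) / k := by
    have h8 : ∫ u in (p + τ)..(p + τ + l), Real.sin (psi κ u - psi κ p) =
        ∫ u in (p + τ)..(p + τ + l),
          Real.sin (psi κ (p + τ) - psi κ p + k * (u - (p + τ))) := by
      apply intervalIntegral.integral_congr
      intro u hu
      rw [uIcc_of_le (by linarith)] at hu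
      have h9 := psi_arc hc harc (le_refl (p + τ)) hu.1 hu.2
      show Real.sin (psi κ u - psi κ p) =
        Real.sin (psi κ (p + τ) - psi κ p + k * (u - (p + τ)))
      rw [h9]
      congr 1
      ring
    rw [h8]
    have hder : ∀ u ∈ uIcc (p + τ) (p + τ + l), HasDerivAt
        (fun u => -Real.cos (psi κ (p + τ) - psi κ p + k * (u - (p + τ))) / k)
        (Real.sin (psi κ (p + τ) - psi κ p + k * (u - (p + τ)))) u := by
      intro u _
      have e1 : HasDerivAt (fun u : ℝ => psi κ (p + τ) - psi κ p + k * (u - (p + τ))) k u := by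
        have := (((hasDerivAt_id u).sub_const (p + τ)).const_mul k).const_add
          (psi κ (p + τ) - psi κ p)
        simpa using this
      have e2 := (e1.cos.neg).div_const k
      have e3 : Real.sin (psi κ (p + τ) - psi κ p + k * (u - (p + τ))) =
          -(-Real.sin (psi κ (p + τ) - psi κ p + k * (u - (p + τ))) * k) / k := by
        rw [eq_div_iff hk.ne']
        ring
      rw [e3]
      exact e2
    rw [intervalIntegral.integral_eq_sub_of_hasDerivAt hder
      ((Real.continuous_sin.comp (by fun_prop)).intervalIntegrable _ _)]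
    have e3 : psi κ (p + τ) - psi κ p + k * (p + τ + l - (p + τ)) =
        psi κ (p + τ) - psi κ p + k * l := by ring
    have e4 : psi κ (p + τ) - psi κ p + k * (p + τ - (p + τ)) =
        psi κ (p + τ) - psi κ p := by ring
    rw [e3, e4, ← sub_div]
    apply div_le_div_of_nonneg_right _ hk.le
    have := Real.cos_le_one (psi κ (p + τ) - psi κ p)
    linarith
  linarith

end Pool.Agent.Helper606.CA
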