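import Pool.Agent.Helper606.CA.Defs

set_option autoImplicit false

namespace Pool.Agent.Helper606.CA
open Complex Set


theorem key_ineq {x r D : ℝ} {N : ℕ} (hx : 0 < x) (hx1 : x ≤ 1) (hr : 0 < r) (hr1 : r ≤ 1)
    (hN : 8 / r ≤ N) (hD : 0 ≤ D) (hD' : D ≤ r * x / 32) (hxr : x ^ 2 ≤ 3 * r) :
    D ^ 2 + (1 - Real.cos (x * (1 + 1 / N) + 2 * D)) ≤ (1 + r) * (1 - Real.cos x) := by
  have h8r : (0:ℝ) < 8 / r := by positivity
  have hN0 : (0:ℝ) < N := lt_of_lt_of_le h8r hN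
  have hNr : 8 ≤ (N:ℝ) * r := (div_le_iff₀ hr).1 hN
  have he1 : 1 / (N:ℝ) ≤ r / 8 := by
    rw [div_le_iff₀ hN0]
    linarith
  have he0 : 0 ≤ 1 / (N:ℝ) := by positivity
  generalize 1 / (N:ℝ) = e at he1 he0
  have hxe : x * e ≤ x * (r / 8) := mul_le_mul_of_nonneg_left he1 hx.le
  have hxe0 : 0 ≤ x * e := mul_nonneg hx.le he0
  have hy0 : 0 ≤ x * (1 + e) + 2 * D := by
    have : x * (1 + e) = x + x * e := by ring
    rw [this]
    linarith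
  have hy1 : x * (1 + e) + 2 * D ≤ x * (1 + 3 * r / 16) := by
    have h1 : x * (1 + e) = x + x * e := by ring
    have h2 : x * (1 + 3 * r / 16) = x + x * (r / 8) + r * x / 16 := by ring
    rw [h1, h2]
    linarith
  have hy2 : (x * (1 + e) + 2 * D) ^ 2 ≤ (x * (1 + 3 * r / 16)) ^ 2 :=
    pow_le_pow_left₀ hy0 hy1 2
  have hcy := Real.one_sub_sq_div_two_le_cos (x := x * (1 + e) + 2 * D)
  have hD2 : D ^ 2 ≤ (r * x / 32) ^ 2 := pow_le_pow_left₀ hD hD' 2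
  have hcx : Real.cos x ≤ 1 - x ^ 2 / 2 + x ^ 4 * (5 / 96) := by
    have h1 := Real.cos_bound (x := x) (by rw [abs_of_pos hx]; exact hx1)
    rw [abs_of_pos hx] at h1
    have h2 := (abs_le.1 h1).2
    linarith
  have hx2 : x ^ 2 ≤ 1 := pow_le_one₀ hx.le hx1
  have hr2 : r ^ 2 ≤ r := by nlinarith
  have h4r : (1 + r) * x ^ 2 ≤ 4 * r := by
    have h1 : r * x ^ 2 ≤ r * 1 := mul_le_mul_of_nonneg_left hx2 hr.le
    have h2 : (1 + r) * x ^ 2 = x ^ 2 + r * x ^ 2 := by ring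
    rw [h2]
    linarith
  have hin : r ^ 2 / 512 + (1 + 3 * r / 16) ^ 2 ≤ 1 + r - 5 / 48 * ((1 + r) * x ^ 2) := by
    have h1 : (1 + 3 * r / 16) ^ 2 = 1 + 3 * r / 8 + 9 * r ^ 2 / 256 := by ring
    rw [h1]
    linarith
  have hmul : x ^ 2 / 2 * (r ^ 2 / 512 + (1 + 3 * r / 16) ^ 2) ≤
      x ^ 2 / 2 * (1 + r - 5 / 48 * ((1 + r) * x ^ 2)) :=
    mul_le_mul_of_nonneg_left hin (by positivity)
  have hL : D ^ 2 + (1 - Real.cos (x * (1 + e) + 2 * D)) ≤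
      x ^ 2 / 2 * (r ^ 2 / 512 + (1 + 3 * r / 16) ^ 2) := by
    have h1 : x ^ 2 / 2 * (r ^ 2 / 512 + (1 + 3 * r / 16) ^ 2) =
        (r * x / 32) ^ 2 + (x * (1 + 3 * r / 16)) ^ 2 / 2 := by ring
    rw [h1]
    linarith
  have hR : x ^ 2 / 2 * (1 + r - 5 / 48 * ((1 + r) * x ^ 2)) ≤ (1 + r) * (1 - Real.cos x) := by
    have h1 : x ^ 2 / 2 * (1 + r - 5 / 48 * ((1 + r) * x ^ 2)) =
        (1 + r) * (x ^ 2 / 2 - x ^ 4 * (5 / 96)) := by ring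
    rw [h1]
    exact mul_le_mul_of_nonneg_left (by linarith) (by linarith)
  exact hL.trans (hmul.trans hR)

end Pool.Agent.Helper606.CA
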