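import Pool.Agent.Helper606.CA.Defs
import Pool.Agent.Helper606.CA.P_arc_fp
import Pool.Agent.Helper606.CA.P_arc_left

set_option autoImplicit false

namespace Pool.Agent.Helper606.CA
open Complex Set


theorem left_geom {κ : ℝ → ℝ} {C : Set ℂ} {θ : ℝ → ℝ} (hc : Continuous κ) (hp : ∀ s, 0 < κ s)
    (h : IsAngle κ C θ) {k p l x : ℝ} {N : ℕ} (hk : 0 < k) (hl : 0 ≤ l) (hN : 1 ≤ N)
    (harc : ∀ u ∈ Icc (p - l) p, κ u = k) (hlt : k * l < 2 * Real.pi) (hx : 0 < x)
    (hA : 2 * N * θ p + x ≤ k * l) : θ p - x / (2 * N) ≤ θ (p - x / k) := by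
  have hk0 : k ≠ 0 := ne_of_gt hk
  have hkl : k * (p - (p - l)) = k * l := by ring
  have harcfp := arc_fp hc hp h (s1 := p - l) (s2 := p) hk (by linarith) harc (by rw [hkl]; exact hlt)
  rw [hkl] at harcfp
  have e1 : p - l + (k * l) / k = p := by field_simp; ring
  have e2 : p - l + (k * l - x) / k = p - x / k := by field_simp; ring
  have key := arc_left harcfp hN hx (by simpa only [e1] using hA)
  simpa only [e1, e2] using key

end Pool.Agent.Helper606.CA
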