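import Pool.Agent.Helper606.CA.Defs
import Pool.Agent.Helper606.CA.P_arc_fp
import Pool.Agent.Helper606.CA.P_arc_right

set_option autoImplicit false

namespace Pool.Agent.Helper606.CA
open Complex Set


theorem right_geom {κ : ℝ → ℝ} {C : Set ℂ} {θ : ℝ → ℝ} (hc : Continuous κ) (hp : ∀ s, 0 < κ s)
    (h : IsAngle κ C θ) {k p l a : ℝ} {N : ℕ} (hk : 0 < k) (hl : 0 ≤ l) (hN : 1 ≤ N)
    (harc : ∀ u ∈ Icc p (p + l), κ u = k) (hlt : k * l < 2 * Real.pi) (ha : 0 ≤ a)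
    (ha' : a < 2 * θ p) (hA : 2 * (N + 1) * θ p ≤ k * l) :
    θ (p + a / k) < θ p + (2 * θ p - a) / (2 * N) := by
  have hpl : p + l - p = l := by ring
  have h1 := arc_fp hc hp h hk (by linarith : p ≤ p + l) harc (by rw [hpl]; exact hlt)
  rw [hpl] at h1
  have h0 : θ (p + 0 / k) = θ p := by rw [zero_div, add_zero]
  have h2 := arc_right h1 hN ha (by rw [h0]; exact ha') (by rw [h0]; exact hA)
  rw [h0] at h2
  exact h2

end Pool.Agent.Helper606.CA
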