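import Pool.Agent.Helper606.CA.Defs
import Pool.Agent.Helper606.CA.P_psi_mono
import Pool.Agent.Helper606.CA.P_angle_lip
import Pool.Agent.Helper606.CA.P_psi_arc
import Pool.Agent.Helper606.CA.P_cross_fp
import Pool.Agent.Helper606.CA.P_height_left
import Pool.Agent.Helper606.CA.P_height_right
import Pool.Agent.Helper606.CA.P_key_ineq
import Pool.Agent.Helper606.CA.P_left_geom
import Pool.Agent.Helper606.CA.P_right_geom

set_option autoImplicit false

namespace Pool.Agent.Helper606.CA
open Complex Set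


set_option maxHeartbeats 4000000 in
theorem jump_kill {κ : ℝ → ℝ} {C : Set ℂ} {θ : ℝ → ℝ} (hc : Continuous κ) (hp : ∀ s, 0 < κ s)
    (h : IsAngle κ C θ) {k r p τ lL lR : ℝ} {N : ℕ} (hk : 0 < k) (hr : 0 < r) (hr1 : r ≤ 1)
    (hN : 8 / r ≤ N) (hτ : 0 < τ) (hlL : 0 < lL) (hlR : 0 < lR)
    (hL : ∀ u ∈ Icc (p - lL) p, κ u = k)
    (hM : ∀ u ∈ Icc p (p + τ), κ u ≤ k * (1 + r))
    (hR : ∀ u ∈ Icc (p + τ) (p + τ + lR), κ u = k * (1 + r))
    (h2L : k * lL ≤ 1) (h2R : k * (1 + r) * lR ≤ 1)
    (hAL : 2 * (N + 1) * θ p ≤ k * lL)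
    (hAR : 2 * (N + 1) * (θ p + k * (1 + r) * τ) ≤ k * (1 + r) * lR)
    (hD : k * (1 + r) * τ ≤ r * θ p / 64) (hθ : θ p ^ 2 ≤ 3 * r) : False := by
  have hN8 : (8:ℝ) ≤ N := by
    have : 8 ≤ 8 / r := by
      rw [le_div_iff₀ hr]; nlinarith
    linarith
  have hNpos : (0:ℝ) < N := by linarith
  have hN1 : 1 ≤ N := by
    have : (1:ℝ) ≤ N := by linarith
    exact_mod_cast this
  have h2N1 : (0:ℝ) < 2 * N + 1 := by linarith
  set t0 := θ p with ht0
  have ht0pos : 0 < t0 := h.pos p
  set k' := k * (1 + r) with hk'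
  have hk'pos : 0 < k' := by positivity
  set D := k' * τ with hDdef
  have hDpos : 0 < D := by positivity
  set x := t0 * (2 * N) / (2 * N + 1) with hx
  have hxpos : 0 < x := by positivity
  have hxeq : x * (2 * N + 1) = t0 * (2 * N) := by rw [hx]; field_simp
  have hxle : x ≤ t0 := by
    rw [hx, div_le_iff₀ h2N1]; nlinarith
  have hxge : t0 ≤ 2 * x := by
    have : t0 * (2 * N + 1) ≤ 2 * x * (2 * N + 1) := by nlinarith
    exact le_of_mul_le_mul_right this h2N1
  have hPi : 3 < Real.pi := Real.pi_gt_three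
  have ht0small : t0 ≤ 1 / 18 := by
    have h1 : 2 * ((N:ℝ) + 1) * t0 ≤ 1 := hAL.trans h2L
    nlinarith
  have hDsmall : D ≤ t0 / 64 := by
    have : r * t0 / 64 ≤ t0 / 64 := by nlinarith
    linarith
  -- left point
  have hxk : x ≤ k * lL := by nlinarith
  have hxkl : x / k ≤ lL := by
    rw [div_le_iff₀ hk]; linarith
  have hleft := left_geom hc hp h hk hlL.le hN1 hL (by linarith) hxpos (by nlinarith)
  have hxN : t0 - x / (2 * N) = x := by
    have : x / (2 * N) * (2 * N) = x := by field_simp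
    have h2 : (t0 - x / (2 * N)) * (2 * N) = x * (2 * N) := by
      rw [sub_mul, this]; linarith
    exact mul_right_cancel₀ (by positivity) h2
  rw [← ht0, hxN] at hleft
  have hkx : k * (x / k) = x := by field_simp
  have hpsiL : psi κ p - psi κ (p - x / k) = x := by
    have h1 := psi_arc hc (s1 := p - lL) (s2 := p) hL (s := p - x / k) (s' := p)
      (by linarith) (by have := div_pos hxpos hk; linarith) le_rfl
    have h2 : k * (p - (p - x / k)) = x := by
      have : p - (p - x / k) = x / k := by ring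
      rw [this, hkx]
    linarith
  have hhL : ht κ (psi κ p) p (gam κ (p - x / k)) = (1 - Real.cos x) / k := by
    have h1 := height_left hc (k := k) (p := p) (l := x / k) hk (by positivity)
      (fun u hu => hL u ⟨by linarith [hu.1], hu.2⟩)
    rw [hkx] at h1
    exact h1
  -- the transition
  set δ := psi κ (p + τ) - psi κ p with hδ
  have hδpos : 0 < δ := sub_pos.2 (psi_mono hc hp (by linarith))
  have hδle : δ ≤ D := by
    have h1 : δ = ∫ u in p..(p + τ), κ u := by
      rw [hδ]
      unfold psi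
      rw [intervalIntegral.integral_interval_sub_left (hc.intervalIntegrable _ _)
        (hc.intervalIntegrable _ _)]
    have h2 : ∫ u in p..(p + τ), κ u ≤ ∫ _u in p..(p + τ), k' := by
      apply intervalIntegral.integral_mono_on (by linarith) (hc.intervalIntegrable _ _)
        (continuous_const.intervalIntegrable _ _)
      intro u hu
      exact hM u hu
    rw [intervalIntegral.integral_const, smul_eq_mul] at h2
    have h3 : (p + τ - p) * k' = D := by rw [hDdef]; ring
    linarith
  set t1 := θ (p + τ) with ht1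
  have hlip : |t1 - t0| ≤ δ := angle_lip hc hp h (by linarith)
  have ht1a : t1 ≤ t0 + δ := by have := (abs_le.1 hlip).2; linarith
  have ht1b : t0 - δ ≤ t1 := by have := (abs_le.1 hlip).1; linarith
  set x' := x * (1 + 1 / N) + 2 * D with hx'
  have hNinv : (1:ℝ) / N ≤ 1 / 8 := one_div_le_one_div_of_le (by norm_num) hN8
  have hNinv0 : (0:ℝ) < 1 / N := by positivity
  have hx1 : x * (1 + 1 / N) ≤ t0 * (9 / 8) := by
    apply mul_le_mul hxle (by linarith) (by positivity) ht0pos.le
  have hx'pos : 0 < x' := by positivity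
  have hx'le : x' ≤ t0 * (9 / 8) + 2 * D := by linarith
  set a := x' - δ with ha
  have ha0 : 0 ≤ a := by
    have : 0 < x * (1 + 1 / N) := by positivity
    linarith
  have hAR' : 2 * ((N:ℝ) + 1) * (t0 + D) ≤ k' * lR := hAR
  have hak : a ≤ k' * lR := by
    have h1 : a ≤ 2 * (t0 + D) := by linarith
    have h2 : 2 * (t0 + D) ≤ 2 * ((N:ℝ) + 1) * (t0 + D) := by
      apply mul_le_mul_of_nonneg_right _ (by positivity)
      linarith
    linarith
  have hakl : a / k' ≤ lR := by
    rw [div_le_iff₀ hk'pos]; linarith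
  have hka : k' * (a / k') = a := by field_simp
  have hpsiR : psi κ (p + τ + a / k') - psi κ p = x' := by
    have h1 := psi_arc hc (s1 := p + τ) (s2 := p + τ + lR) hR (s := p + τ)
      (s' := p + τ + a / k') le_rfl (by have := div_nonneg ha0 hk'pos.le; linarith) (by linarith)
    have h2 : k * (1 + r) * (p + τ + a / k' - (p + τ)) = a := by
      have : p + τ + a / k' - (p + τ) = a / k' := by ring
      rw [this, ← hk', hka]
    linarith
  have hhR : ht κ (psi κ p) p (gam κ (p + τ + a / k')) ≤
      k' * τ ^ 2 + (1 - Real.cos x') / k' := by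
    have h1 := height_right hc hp (k := k') (p := p) (τ := τ) (l := a / k') hk'pos hτ.le
      (div_nonneg ha0 hk'pos.le) hM (fun u hu => hR u ⟨hu.1, by linarith [hu.2]⟩)
      (by linarith)
    rw [hka, ← hδ] at h1
    have h2 : δ + a = x' := by rw [ha]; ring
    rw [h2] at h1
    exact h1
  have hkey := key_ineq hxpos (by linarith) hr hr1 hN hDpos.le (by nlinarith)
    (le_trans (pow_le_pow_left₀ hxpos.le hxle 2) hθ)
  rw [← hx'] at hkey
  have hY : ht κ (psi κ p) p (gam κ (p + τ + a / k')) ≤
      ht κ (psi κ p) p (gam κ (p - x / k)) := by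
    rw [hhL]
    refine hhR.trans ?_
    have e1 : k' * τ ^ 2 + (1 - Real.cos x') / k' = (D ^ 2 + (1 - Real.cos x')) / k' := by
      rw [hDdef]; field_simp
    have e2 : (1 - Real.cos x) / k = (1 + r) * (1 - Real.cos x) / k' := by
      rw [hk']
      have : (1 + r) ≠ 0 := by positivity
      field_simp
    rw [e1, e2]
    exact div_le_div_of_nonneg_right hkey hk'pos.le
  have hcross := cross_fp h (p := p) (sL := p - x / k) (sR := p + τ + a / k') hxpos
    (by linarith) hx'pos (by linarith) hpsiL hpsiR hY hleft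
  have ha2 : a < 2 * t1 := by linarith
  have hright := right_geom hc hp h (k := k') (p := p + τ) (l := lR) (a := a) (N := N) hk'pos
    hlR.le hN1 hR (by linarith) ha0 ha2 (by
      refine le_trans ?_ hAR'
      apply mul_le_mul_of_nonneg_left _ (by positivity)
      linarith)
  rw [← ht1] at hright
  have h1 : x' < t1 + (2 * t1 - a) / (2 * N) := lt_of_le_of_lt hcross hright
  have h2 : (2 * t1 - a) / (2 * N) * (2 * N) = 2 * t1 - a := by field_simp
  have h3 : x' * (2 * N) < t1 * (2 * N) + (2 * t1 - a) := by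
    calc x' * (2 * N) < (t1 + (2 * t1 - a) / (2 * N)) * (2 * N) :=
          mul_lt_mul_of_pos_right h1 (by positivity : (0:ℝ) < 2 * N)
      _ = t1 * (2 * N) + (2 * t1 - a) / (2 * N) * (2 * N) := add_mul _ _ _
      _ = t1 * (2 * N) + (2 * t1 - a) := by rw [h2]
  have h4 : x * (1 + 1 / N) * (2 * N + 1) = t0 * (2 * N + 2) := by
    have e : x * (1 + 1 / N) * (2 * N + 1) = (x * (2 * N + 1)) * (1 + 1 / N) := by ring
    rw [e, hxeq]
    field_simp
  have h5 : x' * (2 * N + 1) < t0 * (2 * N + 2) + (2 * N + 3) * δ := by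
    have : t1 * (2 * N + 2) ≤ (t0 + δ) * (2 * N + 2) :=
      mul_le_mul_of_nonneg_right ht1a (by positivity)
    rw [ha] at h3
    linarith
  have h6 : x' * (2 * N + 1) = t0 * (2 * N + 2) + 2 * D * (2 * N + 1) := by
    rw [hx', add_mul, h4]
  have h7 : (2 * N + 3) * δ ≤ (2 * N + 3) * D := mul_le_mul_of_nonneg_left hδle (by positivity)
  nlinarith

end Pool.Agent.Helper606.CA
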