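import Pool.Agent.Helper606.CA.Defs
import Pool.Agent.Helper606.CA.P_ramp_facts
import Pool.Agent.Helper606.CA.P_ww_facts
import Pool.Agent.Helper606.CA.P_pp_facts

set_option autoImplicit false

namespace Pool.Agent.Helper606.CA
open Complex Set


theorem ff_plateau {j : ℕ} {s : ℝ} (h1 : pp j + tt j ≤ s) (h2 : s ≤ pp (j+1)) :
    ff s = 2 - (1/2:ℝ)^j := by
  obtain ⟨-, -, -, r0, r1⟩ := ramp_facts
  obtain ⟨-, -, -, w4, -⟩ := ww_facts
  obtain ⟨p1, p2, -⟩ := pp_facts
  unfold ff
  have hz : ∀ i ∉ Finset.range (j + 1), ww i * ramp ((s - pp i) / tt i) = 0 := by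
    intro i hi
    rw [Finset.mem_range, not_lt] at hi
    have hle : pp (j + 1) ≤ pp i := by
      rcases hi.eq_or_lt with he | hlt
      · rw [he]
      · have := p2 (j + 1) i hlt
        have := p1 (j + 1)
        linarith
    rw [r0 _ (div_nonpos_of_nonpos_of_nonneg (by linarith) (p1 i).le), mul_zero]
  have ho : ∀ i ∈ Finset.range (j + 1), ww i * ramp ((s - pp i) / tt i) = ww i := by
    intro i hi
    rw [Finset.mem_range] at hi
    have hle : pp i + tt i ≤ pp j + tt j := by
      rcases (Nat.lt_succ_iff.mp hi).eq_or_lt with he | hlt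
      · rw [he]
      · have := p2 i j hlt
        have := p1 j
        linarith
    rw [r1 _ ((one_le_div (p1 i)).mpr (by linarith)), mul_one]
  rw [tsum_eq_sum hz, Finset.sum_congr rfl ho, w4]
  ring

end Pool.Agent.Helper606.CA
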