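import Pool.Agent.Helper606.CA.Defs
import Pool.Agent.Helper606.CA.P_pp_facts
import Pool.Agent.Helper606.CA.P_ff_plateau
import Pool.Agent.Helper606.CA.P_hh_bounds
import Pool.Agent.Helper606.CA.P_kap_eq

set_option autoImplicit false

namespace Pool.Agent.Helper606.CA
open Complex Set


theorem kap_plateau {j : ℕ} {s : ℝ} (h1 : pp j + tt j ≤ s) (h2 : s ≤ pp (j+1)) :
    kap s = 2 - (1/2:ℝ)^j := by
  obtain ⟨f1, -, f3⟩ := pp_facts
  have hb := hh_bounds.1
  have h3 := (f3 j).1
  have h4 := f1 j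
  have h5 := (f3 (j+1)).2
  have h6 := f1 (j+1)
  have hs : |s| = s := abs_of_nonneg (by linarith)
  rw [kap_eq (by rw [hs]; linarith), hs]
  exact ff_plateau h1 h2

end Pool.Agent.Helper606.CA
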