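import Pool.Agent.Helper606.CA.Defs
import Pool.Agent.Helper606.CA.P_pp_facts
import Pool.Agent.Helper606.CA.P_ff_mono
import Pool.Agent.Helper606.CA.P_ff_plateau
import Pool.Agent.Helper606.CA.P_hh_bounds
import Pool.Agent.Helper606.CA.P_kap_eq

set_option autoImplicit false

namespace Pool.Agent.Helper606.CA
open Complex Set


theorem kap_trans {j : ℕ} {s : ℝ} (h1 : pp j ≤ s) (h2 : s ≤ pp j + tt j) :
    kap s ≤ 2 - (1/2:ℝ)^j := by
  obtain ⟨_, hlt, hb⟩ := pp_facts
  have hj := hb j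
  have hh1 := hh_bounds.1
  have hs0 : 0 ≤ s := by linarith [hj.1]
  have hs1 : |s| ≤ hh := by
    rw [abs_of_nonneg hs0]; linarith [hj.2]
  rw [kap_eq hs1, abs_of_nonneg hs0]
  have := ff_mono h2
  have h3 : ff (pp j + tt j) = 2 - (1/2:ℝ)^j :=
    ff_plateau (le_refl _) (hlt j (j+1) (Nat.lt_succ_self j)).le
  linarith

end Pool.Agent.Helper606.CA
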