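import Pool.Agent.Helper606.CA.Defs
import Pool.Agent.Helper606.CA.P_jump_kill
import Pool.Agent.Helper606.CA.P_pp_facts
import Pool.Agent.Helper606.CA.P_kap_cont
import Pool.Agent.Helper606.CA.P_kap_closed
import Pool.Agent.Helper606.CA.P_kap_plateau
import Pool.Agent.Helper606.CA.P_kap_trans

set_option autoImplicit false

namespace Pool.Agent.Helper606.CA
open Complex Set


theorem step_kill {C : Set ℂ} {θ : ℝ → ℝ} (h : IsAngle kap C θ) (j : ℕ) (hj : 1 ≤ j)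
    (h1 : θ (pp j) ≤ (1/2:ℝ)^(2*j+10)) : θ (pp j) ≤ (1/2:ℝ)^(2*j+14) := by
  obtain ⟨i, rfl⟩ : ∃ i, j = i + 1 := ⟨j - 1, by omega⟩
  by_contra hcon
  push Not at hcon
  have hpos : 0 < θ (pp (i+1)) := h.pos _
  set X : ℝ := (1/2:ℝ)^(i+1) with hX
  have hX0 : 0 < X := by positivity
  have hX1 : X ≤ 1/2 := by
    rw [hX, pow_succ]
    have : (1/2:ℝ)^i ≤ 1 := pow_le_one₀ (by norm_num) (by norm_num)
    linarith
  have ei : (1/2:ℝ)^i = 2 * X := by rw [hX, pow_succ]; ring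
  have ej1 : (1/2:ℝ)^(i+1+1) = X / 2 := by rw [hX, pow_succ]; ring
  have ej2 : (1/2:ℝ)^(i+1+1+1) = X / 4 := by rw [hX, pow_succ, pow_succ]; ring
  have et : tt (i+1) = X^3 / 4194304 := by
    have : (1/2:ℝ)^(3*(i+1)+22) = ((1/2:ℝ)^(i+1))^3 * (1/2:ℝ)^22 := by ring
    rw [tt, this, ← hX]; norm_num; ring
  have eti : tt i = X^3 / 524288 := by
    have : (1/2:ℝ)^(3*i+22) = ((1/2:ℝ)^(i+1))^3 * (1/2:ℝ)^19 := by ring
    rw [tt, this, ← hX]; norm_num; ring
  have e10 : (1/2:ℝ)^(2*(i+1)+10) = X^2 / 1024 := by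
    have : (1/2:ℝ)^(2*(i+1)+10) = ((1/2:ℝ)^(i+1))^2 * (1/2:ℝ)^10 := by ring
    rw [this, ← hX]; norm_num; ring
  have e14 : (1/2:ℝ)^(2*(i+1)+14) = X^2 / 16384 := by
    have : (1/2:ℝ)^(2*(i+1)+14) = ((1/2:ℝ)^(i+1))^2 * (1/2:ℝ)^14 := by ring
    rw [this, ← hX]; norm_num; ring
  rw [e10] at h1
  rw [e14] at hcon
  have ep : pp (i+1) = 3/2 - X/2 := by rw [pp, ej1]
  have epi : pp i = 3/2 - X := by rw [pp]
  have ep2 : pp (i+1+1) = 3/2 - X/4 := by rw [pp, ej2]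
  have hX2 : X^2 ≤ X / 2 := by nlinarith
  have hX3 : X^3 ≤ X / 4 := by nlinarith [mul_pos hX0 hX0]
  have hX3p : 0 < X^3 := by positivity
  have hX2p : 0 < X^2 := by positivity
  have hk1 : (1:ℝ) ≤ 2 - 2 * X := by linarith
  have hk0 : (0:ℝ) < 2 - 2 * X := by linarith
  have hkr : (2 - 2 * X) * (1 + X / (2 - 2 * X)) = 2 - X := by
    have h9 : X / (2 - 2 * X) * (2 - 2 * X) = X := div_mul_cancel₀ X hk0.ne'
    linear_combination h9
  have hr0 : 0 < X / (2 - 2 * X) := by positivity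
  have hrle : X / (2 - 2 * X) ≤ X := by
    rw [div_le_iff₀ hk0]; nlinarith
  have hrge : X / 2 ≤ X / (2 - 2 * X) := by
    rw [le_div_iff₀ hk0]; nlinarith
  have hN : ((2^(i+1+4) : ℕ) : ℝ) = 16 / X := by
    push_cast
    rw [hX, one_div, inv_pow, div_inv_eq_mul, pow_add]
    norm_num
    ring
  have h2X : 0 < 16 / X := by positivity
  have hXX : 16 / X * X = 16 := by field_simp
  refine jump_kill (κ := kap) (C := C) (θ := θ) (k := 2 - 2 * X) (r := X / (2 - 2 * X))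
    (p := pp (i+1)) (τ := tt (i+1)) (lL := pp (i+1) - pp i - tt i)
    (lR := pp (i+1+1) - pp (i+1) - tt (i+1)) (N := 2^(i+1+4))
    kap_cont kap_closed.pos h hk0 hr0 (by linarith) ?_ ?_ ?_ ?_ ?_ ?_ ?_ ?_ ?_ ?_ ?_ ?_ ?_
  · -- 8 / r ≤ N
    rw [hN, div_div_eq_mul_div, div_le_div_iff_of_pos_right hX0]
    linarith
  · rw [et]; positivity
  · rw [ep, epi, eti]; linarith
  · rw [ep, ep2, et]; linarith
  · intro u hu
    have := kap_plateau (j := i) (s := u) (by linarith [hu.1]) hu.2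
    rw [this, ei]
  · intro u hu
    rw [hkr, hX]
    exact kap_trans (j := i+1) hu.1 hu.2
  · intro u hu
    rw [hkr, hX]
    exact kap_plateau (j := i+1) (s := u) hu.1 (by linarith [hu.2])
  · rw [ep, epi, eti]; nlinarith
  · rw [hkr, ep, ep2, et]; nlinarith
  · rw [hN, ep, epi, eti]
    have hA : 2 * (16 / X + 1) * θ (pp (i+1)) ≤ 2 * (16 / X + 1) * (X^2/1024) := by
      apply mul_le_mul_of_nonneg_left h1 (by positivity)
    have hB : 2 * (16 / X + 1) * (X^2/1024) = (32 * X + 2 * X^2) / 1024 := by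
      field_simp; ring
    rw [ep] at hA
    nlinarith
  · rw [hN, hkr, ep, ep2, et]
    rw [ep] at h1
    have hA : 2 * (16 / X + 1) * (θ (3/2 - X/2) + (2 - X) * (X^3 / 4194304)) ≤
        2 * (16 / X + 1) * (X^2/1024 + X^2/1024) := by
      apply mul_le_mul_of_nonneg_left _ (by positivity)
      nlinarith
    have hB : 2 * (16 / X + 1) * (X^2/1024 + X^2/1024) = (64 * X + 4 * X^2) / 1024 := by
      field_simp; ring
    nlinarith
  · rw [hkr, et]
    have hA : (X / 2) * (X^2 / 16384) / 64 ≤ X / (2 - 2 * X) * θ (pp (i+1)) / 64 := by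
      have := mul_le_mul hrge hcon.le (by positivity) hr0.le
      linarith
    nlinarith
  · have hA : θ (pp (i+1)) ^ 2 ≤ (X^2/1024)^2 := pow_le_pow_left₀ hpos.le h1 2
    nlinarith

end Pool.Agent.Helper606.CA
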