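import Pool.Agent.Helper606.CA.Defs
import Pool.Agent.Helper606.CA.P_arc_fp
import Pool.Agent.Helper606.CA.P_arc_end

set_option autoImplicit false

namespace Pool.Agent.Helper606.CA
open Complex Set


theorem end_geom {κ : ℝ → ℝ} {C : Set ℂ} {θ : ℝ → ℝ} (hc : Continuous κ) (hp : ∀ s, 0 < κ s)
    (h : IsAngle κ C θ) {k s1 s2 : ℝ} (hk : 0 < k) (h12 : s1 ≤ s2)
    (harc : ∀ u ∈ Icc s1 s2, κ u = k) (hlt : k * (s2 - s1) < 2 * Real.pi)
    (hA : 2 * θ s1 ≤ k * (s2 - s1)) : θ s2 < 2 * θ s1 := by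
  have ha := arc_fp hc hp h hk h12 harc hlt
  have h0 : s1 + 0 / k = s1 := by simp
  have h1 : s1 + k * (s2 - s1) / k = s2 := by
    field_simp
    ring
  have hfin := arc_end ha (by
    show 2 * θ (s1 + 0 / k) ≤ k * (s2 - s1)
    rw [h0]; exact hA)
  have hfin' : θ (s1 + k * (s2 - s1) / k) < 2 * θ (s1 + 0 / k) := hfin
  rwa [h0, h1] at hfin'

end Pool.Agent.Helper606.CA
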