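import Pool.Agent.Helper606.CA.Defs
import Pool.Agent.Helper606.CA.P_psi_deriv
import Pool.Agent.Helper606.CA.P_pp_facts
import Pool.Agent.Helper606.CA.P_kap_cont
import Pool.Agent.Helper606.CA.P_kap_trans

set_option autoImplicit false

namespace Pool.Agent.Helper606.CA
open Complex Set


theorem psi_trans (j : ℕ) : psi kap (pp j + tt j) - psi kap (pp j) ≤ (2 - (1/2:ℝ)^j) * tt j := by
  have ht := pp_facts.1 j
  unfold psi
  rw [intervalIntegral.integral_interval_sub_left (kap_cont.intervalIntegrable _ _)
    (kap_cont.intervalIntegrable _ _)]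
  have hle : pp j ≤ pp j + tt j := by linarith
  have h := intervalIntegral.integral_mono_on hle (kap_cont.intervalIntegrable (μ := MeasureTheory.volume) _ _)
    (continuous_const.intervalIntegrable (μ := MeasureTheory.volume) (pp j) (pp j + tt j))
    (fun s hs => kap_trans (j := j) hs.1 hs.2)
  refine h.trans (le_of_eq ?_)
  rw [intervalIntegral.integral_const, smul_eq_mul]
  ring

end Pool.Agent.Helper606.CA
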