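import Pool.Agent.Helper606.CA.Defs
import Pool.Agent.Helper606.CA.P_angle_lip
import Pool.Agent.Helper606.CA.P_end_geom
import Pool.Agent.Helper606.CA.P_pp_facts
import Pool.Agent.Helper606.CA.P_kap_cont
import Pool.Agent.Helper606.CA.P_kap_closed
import Pool.Agent.Helper606.CA.P_kap_plateau
import Pool.Agent.Helper606.CA.P_psi_trans

set_option autoImplicit false

namespace Pool.Agent.Helper606.CA
open Complex Set


theorem step_next {C : Set ℂ} {θ : ℝ → ℝ} (h : IsAngle kap C θ) (j : ℕ)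
    (h1 : θ (pp j) ≤ (1/2:ℝ)^(2*j+14)) : θ (pp (j+1)) ≤ (1/2:ℝ)^(2*(j+1)+10) := by
  obtain ⟨ft, _, _⟩ := pp_facts
  have hX0 : (0:ℝ) < (1/2:ℝ)^j := by positivity
  have hX1 : (1/2:ℝ)^j ≤ 1 := pow_le_one₀ (by norm_num) (by norm_num)
  have hkp := fun s h1 h2 => kap_plateau (j := j) (s := s) h1 h2
  have htr := psi_trans j
  have htt : tt j = ((1/2:ℝ)^j)^3 * (1/2:ℝ)^22 := by
    unfold tt; rw [pow_add, mul_comm 3 j, pow_mul]
  have hpp : pp j = 3/2 - (1/2:ℝ)^j / 2 := by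
    unfold pp; rw [pow_succ]; ring
  have hpp1 : pp (j+1) = 3/2 - (1/2:ℝ)^j / 4 := by
    unfold pp; rw [pow_succ, pow_succ]; ring
  have e1 : (1/2:ℝ)^(2*j+14) = ((1/2:ℝ)^j)^2 * (1/2:ℝ)^14 := by
    rw [pow_add, mul_comm 2 j, pow_mul]
  have e2 : (1/2:ℝ)^(2*(j+1)+10) = ((1/2:ℝ)^j)^2 * (1/2:ℝ)^12 := by
    rw [show 2*(j+1)+10 = j*2+12 by ring, pow_add, pow_mul]
  rw [e1] at h1
  rw [e2]
  have hang := angle_lip kap_cont kap_closed.pos h (show pp j < pp j + tt j by linarith [ft j])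
  have hang' := (abs_le.1 hang).2
  generalize hX : (1/2:ℝ)^j = X at *
  have hX2 : 0 < X^2 := by positivity
  have hX3 : 0 < X^3 := by positivity
  have hX32 : X^3 ≤ X^2 := by nlinarith
  have hX21 : X^2 ≤ X := by nlinarith
  have hs1 : θ (pp j + tt j) ≤ X^2 * (1/2)^14 + 2 * (X^3 * (1/2)^22) := by
    have : (2 - X) * tt j ≤ 2 * (X^3 * (1/2)^22) := by
      rw [htt]
      apply mul_le_mul_of_nonneg_right (by linarith) (by positivity)
    linarith
  have hd : pp (j+1) - (pp j + tt j) = X / 4 - X^3 * (1/2)^22 := by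
    rw [hpp1, hpp, htt]; ring
  have hk1 : 1 ≤ 2 - X := by linarith
  have hdl : X / 8 ≤ pp (j+1) - (pp j + tt j) := by
    rw [hd]; norm_num; linarith
  have hdu : pp (j+1) - (pp j + tt j) ≤ 1/4 := by
    rw [hd]; nlinarith
  have hfin := end_geom kap_cont kap_closed.pos h (k := 2 - X) (s1 := pp j + tt j)
    (s2 := pp (j+1)) (by linarith) (by linarith) (fun u hu => hkp u hu.1 hu.2) (by
      have hpi := Real.pi_gt_three
      nlinarith) (by
      have : X / 8 ≤ (2 - X) * (pp (j+1) - (pp j + tt j)) := by nlinarith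
      norm_num at hs1
      linarith)
  norm_num at hs1 ⊢
  linarith

end Pool.Agent.Helper606.CA
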