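import Pool.Agent.Helper606.CA.Defs
import Pool.Agent.Helper606.CA.P_base
import Pool.Agent.Helper606.CA.P_step_next
import Pool.Agent.Helper606.CA.P_step_kill

set_option autoImplicit false

namespace Pool.Agent.Helper606.CA
open Complex Set


theorem chain {C : Set ℂ} {θ : ℝ → ℝ} (h : IsAngle kap C θ)
    (hC : ∀ c ∈ C, ‖c - gam kap 1‖ ≤ 2 * hh) (j : ℕ) : θ (pp j) ≤ (1/2:ℝ)^(2*j+14) := by
  induction j with
  | zero =>
    have h0 : pp 0 = 1 := by norm_num [pp]
    rw [h0]
    simpa using base h hC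
  | succ j ih =>
    exact step_kill h (j + 1) (by omega) (step_next h j ih)

end Pool.Agent.Helper606.CA
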