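import Pool.Agent.Helper606.CA.Defs

set_option autoImplicit false

namespace Pool.Agent.Helper606.CA
open Complex Set


theorem int_strict {κ : ℝ → ℝ} {z : ℂ} (hz : z ∈ interior (Tab κ)) (s : ℝ) :
    0 < ht κ (psi κ s) s z := by
  rw [mem_interior_iff_mem_nhds, Metric.mem_nhds_iff] at hz
  obtain ⟨r, hr, hball⟩ := hz
  obtain ⟨e, he⟩ : ∃ e : ℂ, e = exp ((psi κ s : ℂ) * I) := ⟨_, rfl⟩
  have hen : ‖e‖ = 1 := by rw [he]; exact Complex.norm_exp_ofReal_mul_I _
  have hee : exp (-((psi κ s : ℂ) * I)) * e = 1 := by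
    rw [he, ← Complex.exp_add, neg_add_cancel, Complex.exp_zero]
  have hmem : z - ((r / 2 : ℝ) : ℂ) * I * e ∈ Tab κ := by
    apply hball
    rw [Metric.mem_ball, dist_eq_norm]
    have h1 : z - ((r / 2 : ℝ) : ℂ) * I * e - z = -(((r / 2 : ℝ) : ℂ) * I * e) := by ring
    rw [h1, norm_neg, norm_mul, norm_mul, hen, Complex.norm_I, Complex.norm_real,
      Real.norm_eq_abs, abs_of_pos (by positivity)]
    linarith
  have h2 := hmem s
  have h3 : ht κ (psi κ s) s (z - ((r / 2 : ℝ) : ℂ) * I * e) = ht κ (psi κ s) s z - r / 2 := by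
    unfold ht
    have h4 : exp (-((psi κ s : ℂ) * I)) * (z - ((r / 2 : ℝ) : ℂ) * I * e - gam κ s)
        = exp (-((psi κ s : ℂ) * I)) * (z - gam κ s)
          - ((r / 2 : ℝ) : ℂ) * I * (exp (-((psi κ s : ℂ) * I)) * e) := by ring
    rw [h4, hee, mul_one, Complex.sub_im]
    have h5 : (((r / 2 : ℝ) : ℂ) * I).im = r / 2 := by
      rw [Complex.im_ofReal_mul, Complex.I_im, mul_one]
    rw [h5]
  rw [h3] at h2
  linarith

end Pool.Agent.Helper606.CA
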