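import Pool.Agent.Helper606.CA.Defs
import Pool.Agent.Helper606.CA.P_psi_deriv

set_option autoImplicit false

namespace Pool.Agent.Helper606.CA
open Complex Set


theorem psi_per {κ : ℝ → ℝ} {P : ℝ} (h : Closed κ P) (s : ℝ) : psi κ (s + P) = psi κ s + Real.pi := by
  have hint : ∀ a b : ℝ, IntervalIntegrable κ MeasureTheory.volume a b :=
    fun a b => h.cont.intervalIntegrable a b
  have hp : Function.Periodic κ P := h.per
  have h1 := intervalIntegral.integral_add_adjacent_intervals (hint 0 s) (hint s (s + P))
  have h2 := hp.intervalIntegral_add_eq s 0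
  rw [zero_add, h.total] at h2
  unfold psi
  rw [← h1, h2]

end Pool.Agent.Helper606.CA
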