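import Pool.Agent.Helper606.CA.Defs
import Pool.Agent.Helper606.CA.P_gam_deriv
import Pool.Agent.Helper606.CA.P_psi_per

set_option autoImplicit false

namespace Pool.Agent.Helper606.CA
open Complex Set


theorem gam_per {κ : ℝ → ℝ} {P : ℝ} (h : Closed κ P) (s : ℝ) : gam κ (s + 2 * P) = gam κ s := by
  have hd : ∀ s, HasDerivAt (fun s => gam κ (s + P) + gam κ s) 0 s := by
    intro s
    have h1 := gam_deriv h.cont (s + P)
    have h2 := gam_deriv h.cont s
    have h3 : HasDerivAt (fun s : ℝ => gam κ (s + P)) (exp ((psi κ (s + P) : ℂ) * I)) s :=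
      HasDerivAt.comp_add_const s P h1
    have h4 : exp ((psi κ (s + P) : ℂ) * I) + exp ((psi κ s : ℂ) * I) = 0 := by
      rw [psi_per h s]
      push_cast
      rw [add_mul, Complex.exp_add, Complex.exp_pi_mul_I]
      ring
    have h5 := h3.add h2
    rw [h4] at h5
    exact h5
  have hc := is_const_of_deriv_eq_zero (𝕜 := ℝ) (f := fun s => gam κ (s + P) + gam κ s)
    (fun s => (hd s).differentiableAt) (fun s => (hd s).deriv) (s + P) s
  have h6 : s + P + P = s + 2 * P := by ring
  rw [h6, add_comm (gam κ (s + P))] at hc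
  exact add_right_cancel hc

end Pool.Agent.Helper606.CA
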