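import Pool.Agent.Helper606.CA.Defs
import Pool.Agent.Helper606.CA.P_psi_deriv
import Pool.Agent.Helper606.CA.P_psi_mono
import Pool.Agent.Helper606.CA.P_psi_per
import Pool.Agent.Helper606.CA.P_gam_per
import Pool.Agent.Helper606.CA.P_ht_int

set_option autoImplicit false

namespace Pool.Agent.Helper606.CA
open Complex Set


theorem ht_pos {κ : ℝ → ℝ} {P : ℝ} (h : Closed κ P) {s s' : ℝ} (h1 : s < s') (h2 : s' < s + 2 * P) :
    0 < ht κ (psi κ s) s (gam κ s') := by
  have hmono := psi_mono h.cont h.pos
  have hcont : Continuous (psi κ) :=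
    continuous_iff_continuousAt.mpr (fun x => (psi_deriv h.cont x).continuousAt)
  have hgc : Continuous (fun u => Real.sin (psi κ u - psi κ s)) := by fun_prop
  have hP := h.P_pos
  have e1 : psi κ (s + P) = psi κ s + Real.pi := psi_per h s
  have e2 : psi κ (s + 2 * P) = psi κ s + 2 * Real.pi := by
    have := psi_per h (s + P)
    rw [e1] at this
    rw [show s + 2 * P = s + P + P by ring, this]; ring
  rw [ht_int h.cont]
  rcases le_or_gt s' (s + P) with hc | hc
  · apply intervalIntegral.intervalIntegral_pos_of_pos_on (hgc.intervalIntegrable _ _) _ h1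
    intro u hu
    have i1 := hmono hu.1
    have i2 : psi κ u < psi κ (s + P) := hmono (lt_of_lt_of_le hu.2 hc)
    rw [e1] at i2
    exact Real.sin_pos_of_pos_of_lt_pi (by linarith) (by linarith)
  · have t0 : ∫ u in s..(s + 2 * P), Real.sin (psi κ u - psi κ s) = 0 := by
      rw [← ht_int h.cont, gam_per h]
      unfold ht
      simp
    have t1 : (∫ u in s..s', Real.sin (psi κ u - psi κ s)) +
        ∫ u in s'..(s + 2 * P), Real.sin (psi κ u - psi κ s) =
        ∫ u in s..(s + 2 * P), Real.sin (psi κ u - psi κ s) :=
      intervalIntegral.integral_add_adjacent_intervals (hgc.intervalIntegrable _ _)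
        (hgc.intervalIntegrable _ _)
    have t2 : 0 < ∫ u in s'..(s + 2 * P), -Real.sin (psi κ u - psi κ s) := by
      apply intervalIntegral.intervalIntegral_pos_of_pos_on (hgc.neg.intervalIntegrable _ _) _ h2
      intro u hu
      have i1 := hmono (hc.trans hu.1)
      have i2 := hmono hu.2
      rw [e1] at i1
      rw [e2] at i2
      have := Real.sin_neg_of_neg_of_neg_pi_lt (x := psi κ u - psi κ s - 2 * Real.pi)
        (by linarith) (by linarith)
      rw [Real.sin_sub_two_pi] at this
      show 0 < -Real.sin (psi κ u - psi κ s)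
      linarith
    rw [intervalIntegral.integral_neg] at t2
    linarith

end Pool.Agent.Helper606.CA
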