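import Pool.Agent.Helper606.CA.Defs
import Pool.Agent.Helper606.CA.P_gam_per
import Pool.Agent.Helper606.CA.P_ht_pos

set_option autoImplicit false

namespace Pool.Agent.Helper606.CA
open Complex Set


theorem gam_mem {κ : ℝ → ℝ} {P : ℝ} (h : Closed κ P) (s : ℝ) : gam κ s ∈ Tab κ := by
  intro s'
  have hP : (0:ℝ) < 2 * P := by have := h.P_pos; linarith
  have hper : Function.Periodic (gam κ) (2 * P) := fun x => gam_per h x
  have hmem := toIcoMod_mem_Ico hP s' s
  have heq : gam κ (toIcoMod hP s' s) = gam κ s := by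
    rw [toIcoMod]
    exact hper.sub_zsmul_eq _
  rw [← heq]
  rcases eq_or_lt_of_le hmem.1 with h1 | h1
  · rw [← h1]
    simp [ht]
  · exact (ht_pos h h1 hmem.2).le

end Pool.Agent.Helper606.CA
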