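import Pool.Agent.Helper606.CA.Defs
import Pool.Agent.Helper606.CA.P_psi_deriv
import Pool.Agent.Helper606.CA.P_gam_deriv
import Pool.Agent.Helper606.CA.P_psi_mono
import Pool.Agent.Helper606.CA.P_psi_per
import Pool.Agent.Helper606.CA.P_gam_per
import Pool.Agent.Helper606.CA.P_ht_int
import Pool.Agent.Helper606.CA.P_ht_add
import Pool.Agent.Helper606.CA.P_ht_pos
import Pool.Agent.Helper606.CA.P_gam_mem

set_option autoImplicit false

namespace Pool.Agent.Helper606.CA
open Complex Set


theorem inward_ht (κ : ℝ → ℝ) (φ s s' r β : ℝ) :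
    ht κ φ s' (gam κ s + r * exp (((β : ℝ) : ℂ) * I)) =
      ht κ φ s' (gam κ s) + r * Real.sin (β - φ) := by
  unfold ht
  have e : exp (-((φ : ℂ) * I)) * (gam κ s + r * exp (((β : ℝ) : ℂ) * I) - gam κ s') =
      exp (-((φ : ℂ) * I)) * (gam κ s - gam κ s') + (r : ℂ) * exp (((β - φ : ℝ) : ℂ) * I) := by
    have e2 : exp (((β - φ : ℝ) : ℂ) * I) = exp (-((φ : ℂ) * I)) * exp (((β : ℝ) : ℂ) * I) := by
      rw [← Complex.exp_add]; congr 1; push_cast; ring
    rw [e2]; ring
  rw [e, Complex.add_im, Complex.im_ofReal_mul, Complex.exp_ofReal_mul_I_im]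

theorem inward {κ : ℝ → ℝ} {P : ℝ} (h : Closed κ P) (s a : ℝ) (ha : 0 < a) (ha' : a < Real.pi) :
    ∃ r : ℝ, 0 < r ∧ gam κ s + r * exp (((psi κ s + a : ℝ) : ℂ) * I) ∈ Tab κ := by
  have hψ : Continuous (psi κ) :=
    continuous_iff_continuousAt.2 fun x => (psi_deriv h.cont x).continuousAt
  have hγ : Continuous (gam κ) :=
    continuous_iff_continuousAt.2 fun x => (gam_deriv h.cont x).continuousAt
  have hP := h.P_pos
  have hpsi2 : ∀ s', psi κ (s' + 2 * P) = psi κ s' + 2 * Real.pi := by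
    intro s'
    rw [show s' + 2 * P = (s' + P) + P by ring, psi_per h, psi_per h]; ring
  obtain ⟨H, hH⟩ : ∃ H : ℝ → ℝ, H = fun s' => ht κ (psi κ s') s' (gam κ s) := ⟨_, rfl⟩
  obtain ⟨g, hg⟩ : ∃ g : ℝ → ℝ, g = fun s' => Real.sin (psi κ s + a - psi κ s') := ⟨_, rfl⟩
  have hHc : Continuous H := by
    rw [hH]
    show Continuous fun s' => (exp (-((psi κ s' : ℂ) * I)) * (gam κ s - gam κ s')).im
    refine Complex.continuous_im.comp (Continuous.mul ?_ (continuous_const.sub hγ))
    exact Complex.continuous_exp.comp ((Complex.continuous_ofReal.comp hψ).mul continuous_const).neg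
  have hgc : Continuous g := by
    rw [hg]
    exact Real.continuous_sin.comp (continuous_const.sub hψ)
  have hHp : ∀ s', H (s' + 2 * P) = H s' := by
    intro s'
    rw [hH]
    simp only [ht]
    rw [gam_per h, hpsi2]
    have e : exp (-(((psi κ s' + 2 * Real.pi : ℝ) : ℂ) * I)) = exp (-((psi κ s' : ℂ) * I)) := by
      rw [show (-(((psi κ s' + 2 * Real.pi : ℝ) : ℂ) * I)) =
        -((psi κ s' : ℂ) * I) - 2 * Real.pi * I by push_cast; ring]
      exact Complex.exp_periodic.sub_eq _
    rw [e]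
  have hgp : ∀ s', g (s' + 2 * P) = g s' := by
    intro s'
    rw [hg]
    simp only
    rw [hpsi2, show psi κ s + a - (psi κ s' + 2 * Real.pi) = (psi κ s + a - psi κ s') - 2 * Real.pi by ring]
    exact Real.sin_periodic.sub_eq _
  have hH0 : ∀ s', 0 ≤ H s' := by
    intro s'
    rw [hH]
    exact gam_mem h s s'
  have hHpos : ∀ s', s < s' → s' < s + 2 * P → 0 < H s' := by
    intro s' h1 h2
    rw [hH]
    have h3 := ht_pos h (s := s') (s' := s + 2 * P) h2 (by linarith)
    rw [gam_per h] at h3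
    exact h3
  have hgs : 0 < g s := by
    rw [hg]
    simp only
    rw [show psi κ s + a - psi κ s = a by ring]
    exact Real.sin_pos_of_pos_of_lt_pi ha ha'
  obtain ⟨δ, hδ, hδg⟩ : ∃ δ > 0, ∀ s', |s' - s| < δ → 0 < g s' := by
    obtain ⟨δ, hδ, h1⟩ := Metric.continuousAt_iff.1 (hgc.continuousAt (x := s)) (g s) hgs
    refine ⟨δ, hδ, fun s' hs' => ?_⟩
    have h2 := h1 (x := s') (by rw [Real.dist_eq]; exact hs')
    rw [Real.dist_eq, abs_lt] at h2
    linarith [h2.1]
  obtain ⟨η, hη, hη1, hη2⟩ : ∃ η > 0, η < δ ∧ η < P := by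
    refine ⟨min δ P / 2, by positivity, ?_, ?_⟩
    · have := min_le_left δ P; have : 0 < min δ P := by positivity
      linarith
    · have := min_le_right δ P; have : 0 < min δ P := by positivity
      linarith
  have hKne : (Icc (s + η) (s + 2 * P - η)).Nonempty := ⟨s + η, by constructor <;> linarith⟩
  obtain ⟨x0, hx0, hmin⟩ := isCompact_Icc.exists_isMinOn hKne hHc.continuousOn
  have hm : 0 < H x0 := hHpos x0 (by linarith [hx0.1]) (by linarith [hx0.2])
  refine ⟨H x0, hm, ?_⟩
  have key : ∀ s' ∈ Ico s (s + 2 * P), 0 ≤ H s' + H x0 * g s' := by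
    intro s' hs'
    by_cases c1 : s' < s + η
    · have := hδg s' (by rw [abs_lt]; constructor <;> linarith [hs'.1])
      have h0 := hH0 s'
      positivity
    · by_cases c2 : s + 2 * P - η < s'
      · have h3 := hδg (s' - 2 * P) (by rw [abs_lt]; constructor <;> linarith [hs'.2])
        have h4 := hgp (s' - 2 * P)
        rw [sub_add_cancel] at h4
        rw [← h4] at h3
        have h0 := hH0 s'
        positivity
      · have h5 : H x0 ≤ H s' := hmin (show s' ∈ Icc (s + η) (s + 2 * P - η) from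
          ⟨by linarith, by linarith⟩)
        have h6 : -1 ≤ g s' := by rw [hg]; exact Real.neg_one_le_sin _
        nlinarith
  intro s'
  rw [inward_ht]
  have hper : Function.Periodic (fun s' => H s' + H x0 * g s') (2 * P) := by
    intro y
    simp only
    rw [hHp, hgp]
  obtain ⟨y, hy, hy2⟩ := hper.exists_mem_Ico (by linarith) s' s
  have h7 : ht κ (psi κ s') s' (gam κ s) + H x0 * Real.sin (psi κ s + a - psi κ s')
      = H s' + H x0 * g s' := by rw [hH, hg]
  rw [h7]
  rw [hy2]
  exact key y hy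

end Pool.Agent.Helper606.CA
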