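import Pool.Agent.Helper606.CA.Defs
import Pool.Agent.Helper606.CA.P_ht_polar
import Pool.Agent.Helper606.CA.P_ang_mem
import Pool.Agent.Helper606.CA.P_ang_polar

set_option autoImplicit false

namespace Pool.Agent.Helper606.CA
open Complex Set


theorem supp_end_re (κ : ℝ → ℝ) (s : ℝ) (z : ℂ) :
    z.re - (gam κ s).re = ‖z - gam κ s‖ * Real.cos (psi κ s + ang κ s z) := by
  have h := congrArg Complex.re (ang_polar κ s z)
  rw [Complex.add_re, Complex.re_ofReal_mul, Complex.exp_ofReal_mul_I_re] at h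
  linarith

theorem supp_end_im (κ : ℝ → ℝ) (s : ℝ) (z : ℂ) :
    z.im - (gam κ s).im = ‖z - gam κ s‖ * Real.sin (psi κ s + ang κ s z) := by
  have h := congrArg Complex.im (ang_polar κ s z)
  rw [Complex.add_im, Complex.im_ofReal_mul, Complex.exp_ofReal_mul_I_im] at h
  linarith

theorem supp_end_key (κ : ℝ → ℝ) (s : ℝ) (c z : ℂ) :
    ((starRingEnd ℂ) (gam κ s - c) * (z - c)).im =
      -(‖c - gam κ s‖ * ‖z - gam κ s‖ * Real.sin (ang κ s z - ang κ s c)) := by
  have h1 := supp_end_re κ s c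
  have h2 := supp_end_im κ s c
  have h3 := supp_end_re κ s z
  have h4 := supp_end_im κ s z
  have e : ang κ s z - ang κ s c = (psi κ s + ang κ s z) - (psi κ s + ang κ s c) := by ring
  rw [e, Real.sin_sub]
  simp only [Complex.mul_im, Complex.conj_re, Complex.conj_im, Complex.sub_re, Complex.sub_im]
  have e1 : (gam κ s).re - c.re = -(‖c - gam κ s‖ * Real.cos (psi κ s + ang κ s c)) := by linarith
  have e2 : (gam κ s).im - c.im = -(‖c - gam κ s‖ * Real.sin (psi κ s + ang κ s c)) := by linarith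
  have e3 : z.re - c.re = ‖z - gam κ s‖ * Real.cos (psi κ s + ang κ s z) -
      ‖c - gam κ s‖ * Real.cos (psi κ s + ang κ s c) := by linarith
  have e4 : z.im - c.im = ‖z - gam κ s‖ * Real.sin (psi κ s + ang κ s z) -
      ‖c - gam κ s‖ * Real.sin (psi κ s + ang κ s c) := by linarith
  rw [e1, e2, e3, e4]
  ring

theorem supp_end {κ : ℝ → ℝ} {C : Set ℂ} {s a b β : ℝ} {c : ℂ}
    (hz : ∀ z ∈ C, 0 < ht κ (psi κ s) s z) (ha0 : 0 < a) (hb0 : b < Real.pi)
    (hab' : ∀ c ∈ C, a ≤ ang κ s c ∧ ang κ s c ≤ b) (hβ : β = a ∨ β = b)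
    (hc : c ∈ C) (hcβ : ang κ s c = β) : Supports c (gam κ s - c) C := by
  refine ⟨⟨0, by simpa using hc⟩, ?_⟩
  rcases hβ with h | h
  · right
    intro z hzC
    rw [supp_end_key, hcβ, h]
    have h1 := hab' z hzC
    have h2 : 0 ≤ Real.sin (ang κ s z - a) :=
      Real.sin_nonneg_of_nonneg_of_le_pi (by linarith [h1.1]) (by linarith [h1.2])
    have h3 : 0 ≤ ‖c - gam κ s‖ * ‖z - gam κ s‖ := by positivity
    have := mul_nonneg h3 h2
    linarith
  · left
    intro z hzC
    rw [supp_end_key, hcβ, h]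
    have h1 := hab' z hzC
    have h2 : Real.sin (ang κ s z - b) ≤ 0 :=
      Real.sin_nonpos_of_nonpos_of_neg_pi_le (by linarith [h1.2]) (by linarith [h1.1])
    have h3 : 0 ≤ ‖c - gam κ s‖ * ‖z - gam κ s‖ := by positivity
    have := mul_nonneg h3 (neg_nonneg.2 h2)
    linarith

end Pool.Agent.Helper606.CA
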