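import Pool.Agent.Helper606.CA.Defs
import Pool.Agent.Helper606.CA.P_ht_polar
import Pool.Agent.Helper606.CA.P_ang_mem

set_option autoImplicit false

namespace Pool.Agent.Helper606.CA
open Complex Set


theorem supp_through_im (κ : ℝ → ℝ) (s β r : ℝ) (c : ℂ) :
    ((starRingEnd ℂ) (r * exp (((psi κ s + β : ℝ) : ℂ) * I)) * (c - gam κ s)).im =
      r * (‖c - gam κ s‖ * Real.sin (ang κ s c - β)) := by
  have h1 : (starRingEnd ℂ) (r * exp (((psi κ s + β : ℝ) : ℂ) * I)) =
      r * exp (-(((psi κ s + β : ℝ) : ℂ) * I)) := by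
    rw [map_mul, ← Complex.exp_conj, Complex.conj_ofReal, map_mul, Complex.conj_ofReal,
      Complex.conj_I, mul_neg]
  have h2 := ht_polar κ (psi κ s + β) s c
  rw [h1, mul_assoc, Complex.im_ofReal_mul]
  unfold ht at h2
  rw [h2]
  congr 3
  ring

theorem supp_through {κ : ℝ → ℝ} {C : Set ℂ} {s a b β r : ℝ} (hβ : 0 < β) (hβ' : β < Real.pi)
    (hr : 0 < r) (hab : a < b) (ha0 : 0 < a) (hb0 : b < Real.pi)
    (hz : ∀ z ∈ C, 0 < ht κ (psi κ s) s z)
    (hab' : ∀ c ∈ C, a ≤ ang κ s c ∧ ang κ s c ≤ b)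
    (hatta : ∃ c ∈ C, ang κ s c = a) (hattb : ∃ c ∈ C, ang κ s c = b)
    (hs : Supports (gam κ s) (r * exp (((psi κ s + β : ℝ) : ℂ) * I)) C) : β = a ∨ β = b := by
  obtain ⟨⟨t, ht0⟩, hside⟩ := hs
  have hnorm : ∀ c ∈ C, 0 < ‖c - gam κ s‖ := by
    intro c hc
    rw [norm_pos_iff]
    intro h
    have := hz c hc
    unfold ht at this
    rw [h] at this
    simp at this
  set c0 : ℂ := gam κ s + t * (r * exp (((psi κ s + β : ℝ) : ℂ) * I)) with hc0
  have hexp : exp (-((psi κ s : ℂ) * I)) * (c0 - gam κ s) = ((t * r : ℝ) : ℂ) *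
      (Complex.cos (β : ℂ) + Complex.sin (β : ℂ) * I) := by
    rw [hc0, add_sub_cancel_left, ← Complex.exp_mul_I]
    have : exp (-((psi κ s : ℂ) * I)) * exp (((psi κ s + β : ℝ) : ℂ) * I) =
        exp ((β : ℂ) * I) := by
      rw [← Complex.exp_add]
      congr 1
      push_cast
      ring
    rw [← this]
    push_cast
    ring
  have htr : 0 < t := by
    have h1 := hz c0 ht0
    unfold ht at h1
    have h0 : (((t * r : ℝ) : ℂ) * (Complex.cos (β : ℂ) + Complex.sin (β : ℂ) * I)).im =
        t * r * Real.sin β := by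
      rw [Complex.im_ofReal_mul, Complex.add_im, Complex.cos_ofReal_im, Complex.mul_I_im,
        Complex.sin_ofReal_re, zero_add]
    rw [hexp, h0] at h1
    have hsin : 0 < Real.sin β := Real.sin_pos_of_pos_of_lt_pi hβ hβ'
    by_contra hneg
    push Not at hneg
    have : t * r * Real.sin β ≤ 0 := by
      have : 0 ≤ r * Real.sin β := by positivity
      nlinarith
    linarith
  have hang : ang κ s c0 = β := by
    unfold ang
    rw [hexp]
    exact Complex.arg_mul_cos_add_sin_mul_I (by positivity) ⟨by linarith, hβ'.le⟩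
  have hβab := hab' c0 ht0
  rw [hang] at hβab
  rcases hside with h | h
  · left
    obtain ⟨c, hc, hca⟩ := hatta
    have h1 := h c hc
    rw [supp_through_im, hca] at h1
    rcases eq_or_lt_of_le hβab.1 with h2 | h2
    · exact h2.symm
    · exfalso
      have h3 : Real.sin (a - β) < 0 := Real.sin_neg_of_neg_of_neg_pi_lt (by linarith) (by linarith)
      have h4 := hnorm c hc
      have : r * (‖c - gam κ s‖ * Real.sin (a - β)) < 0 := by
        apply mul_neg_of_pos_of_neg hr
        exact mul_neg_of_pos_of_neg h4 h3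
      linarith
  · right
    obtain ⟨c, hc, hcb⟩ := hattb
    have h1 := h c hc
    rw [supp_through_im, hcb] at h1
    rcases eq_or_lt_of_le hβab.2 with h2 | h2
    · exact h2
    · exfalso
      have h3 : 0 < Real.sin (b - β) := Real.sin_pos_of_pos_of_lt_pi (by linarith) (by linarith)
      have h4 := hnorm c hc
      have : 0 < r * (‖c - gam κ s‖ * Real.sin (b - β)) := by positivity
      linarith

end Pool.Agent.Helper606.CA
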