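import Pool.Agent.Helper606.CA.Defs
import Pool.Agent.Helper606.CA.P_gam_mem
import Pool.Agent.Helper606.CA.P_int_strict
import Pool.Agent.Helper606.CA.P_inward
import Pool.Agent.Helper606.CA.P_ang_mem
import Pool.Agent.Helper606.CA.P_ang_polar
import Pool.Agent.Helper606.CA.P_supp_through
import Pool.Agent.Helper606.CA.P_supp_end

set_option autoImplicit false

namespace Pool.Agent.Helper606.CA
open Complex Set


theorem mirror {κ : ℝ → ℝ} {P : ℝ} (h : Closed κ P) {C : Set ℂ}
    (hC : IsConvexCaustic (Tab κ) (gam κ) (psi κ) C) {s a b β : ℝ} (hab : a < b) (ha0 : 0 < a)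
    (hb0 : b < Real.pi) (hab' : ∀ c ∈ C, a ≤ ang κ s c ∧ ang κ s c ≤ b)
    (hatta : ∃ c ∈ C, ang κ s c = a) (hattb : ∃ c ∈ C, ang κ s c = b) (hβ : β = a ∨ β = b) :
    Real.pi - β = a ∨ Real.pi - β = b := by
  have hstrict : ∀ z ∈ C, 0 < ht κ (psi κ s) s z := fun z hz => int_strict (hC.subset hz) s
  obtain ⟨c, hc, hcβ⟩ : ∃ c ∈ C, ang κ s c = β := by
    rcases hβ with h1 | h1
    · rw [h1]; exact hatta
    · rw [h1]; exact hattb
  have hβ0 : 0 < β := by rcases hβ with h1 | h1 <;> linarith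
  have hβ1 : β < Real.pi := by rcases hβ with h1 | h1 <;> linarith
  obtain ⟨r, hr, hx2⟩ := inward h s (Real.pi - β) (by linarith) (by linarith)
  have hcg : c - gam κ s ≠ 0 := by
    intro h0
    have h1 := hstrict c hc
    unfold ht at h1
    rw [h0, mul_zero] at h1
    simp at h1
  have hρ : ‖c - gam κ s‖ ≠ 0 := norm_ne_zero_iff.2 hcg
  have hrC : (r : ℂ) ≠ 0 := by exact_mod_cast hr.ne'
  obtain ⟨v, hv⟩ : ∃ v : ℂ, v = (r : ℂ) * exp (((psi κ s + (Real.pi - β) : ℝ) : ℂ) * I) := ⟨_, rfl⟩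
  have hv0 : v ≠ 0 := by
    rw [hv]
    exact mul_ne_zero hrC (Complex.exp_ne_zero _)
  have hvn : ‖v‖ = r := by
    rw [hv, norm_mul, Complex.norm_exp_ofReal_mul_I, mul_one, Complex.norm_real, Real.norm_of_nonneg hr.le]
  rw [← hv] at hx2
  obtain ⟨x, hx⟩ : ∃ x : ℕ → ℂ, x = fun i => if i = 0 then c else if i = 1 then gam κ s else gam κ s + v :=
    ⟨_, rfl⟩
  have x0 : x 0 = c := by rw [hx]; simp
  have x1 : x 1 = gam κ s := by rw [hx]; simp
  have x2 : x 2 = gam κ s + v := by rw [hx]; simp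
  have hpath : IsBilliardPath (Tab κ) (gam κ) (psi κ) 2 x := by
    refine ⟨?_, ?_, ?_⟩
    · intro i hi
      interval_cases i
      · rw [x0]; exact interior_subset (hC.subset hc)
      · rw [x1]; exact gam_mem h s
      · rw [x2]; exact hx2
    · intro i hi
      interval_cases i
      · show x 0 ≠ x 1
        rw [x0, x1]
        exact sub_ne_zero.1 hcg
      · show x 1 ≠ x 2
        rw [x1, x2]
        intro h1
        apply hv0
        have := congrArg (fun z => z - gam κ s) h1
        simp only [sub_self, add_sub_cancel_left] at this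
        exact this.symm
    · intro i hi
      have hi0 : i = 0 := by omega
      subst hi0
      refine ⟨s, x1, ?_⟩
      show (x 2 - x 1) / (‖x 2 - x 1‖ : ℂ) = exp (2 * psi κ s * I) *
        (starRingEnd ℂ) ((x 1 - x 0) / (‖x 1 - x 0‖ : ℂ))
      rw [x0, x1, x2, add_sub_cancel_left, hvn]
      have e1 : gam κ s - c = -(c - gam κ s) := by ring
      have e2 : c - gam κ s = ‖c - gam κ s‖ * exp (((psi κ s + β : ℝ) : ℂ) * I) := by
        have := ang_polar κ s c
        rw [hcβ] at this
        exact sub_eq_iff_eq_add'.2 this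
      have hρC : ((‖c - gam κ s‖ : ℝ) : ℂ) ≠ 0 := by exact_mod_cast hρ
      have e3 : (gam κ s - c) / ((‖gam κ s - c‖ : ℝ) : ℂ) = -exp (((psi κ s + β : ℝ) : ℂ) * I) := by
        rw [norm_sub_rev, e1, neg_div]
        congr 1
        conv_lhs => rw [e2]
        rw [div_eq_iff]
        · rw [Complex.norm_mul, Complex.norm_exp_ofReal_mul_I, mul_one, Complex.norm_real, norm_norm]
          ring
        · rw [← e2]; exact hρC
      rw [e3, hv, mul_div_cancel_left₀ _ hrC, map_neg, ← Complex.exp_conj, map_mul, Complex.conj_ofReal,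
        Complex.conj_I]
      have e4 : -exp (((psi κ s + β : ℝ) : ℂ) * -I) = exp (Real.pi * I) * exp (((psi κ s + β : ℝ) : ℂ) * -I) := by
        rw [Complex.exp_pi_mul_I]; ring
      rw [e4, ← Complex.exp_add, ← Complex.exp_add]
      congr 1
      push_cast
      ring
  have hs0 : Supports (x 0) (x 1 - x 0) C := by
    rw [x0, x1]
    exact supp_end hstrict ha0 hb0 hab' hβ hc hcβ
  have h3 := hC.invariant 2 x (by norm_num) hpath hs0 1 (by norm_num)
  have h4 : Supports (gam κ s) ((r : ℂ) * exp (((psi κ s + (Real.pi - β) : ℝ) : ℂ) * I)) C := by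
    have e5 : x (1 + 1) - x 1 = v := by
      show x 2 - x 1 = v
      rw [x1, x2, add_sub_cancel_left]
    rw [e5, x1] at h3
    rw [← hv]
    exact h3
  exact supp_through (by linarith) (by linarith) hr hab ha0 hb0 hstrict hab' hatta hattb h4

end Pool.Agent.Helper606.CA
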