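import Pool.Agent.Helper606.CA.Defs
import Pool.Agent.Helper606.CA.P_int_strict
import Pool.Agent.Helper606.CA.P_ang_minmax
import Pool.Agent.Helper606.CA.P_mirror

set_option autoImplicit false

namespace Pool.Agent.Helper606.CA
open Complex Set


theorem exists_angle {κ : ℝ → ℝ} {P : ℝ} (h : Closed κ P) {C : Set ℂ}
    (hC : IsConvexCaustic (Tab κ) (gam κ) (psi κ) C) : ∃ θ : ℝ → ℝ, IsAngle κ C θ := by
  have hab : ∀ s, ∀ c ∈ C, 0 < ht κ (psi κ s) s c := fun s c hc => int_strict (hC.subset hc) s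
  have key : ∀ s, ∃ θ : ℝ, 0 < θ ∧ θ < Real.pi / 2 ∧ (∀ c ∈ C, θ ≤ ang κ s c) ∧
      (∀ c ∈ C, ang κ s c ≤ Real.pi - θ) ∧ (∃ c ∈ C, ang κ s c = θ) ∧
      (∃ c ∈ C, ang κ s c = Real.pi - θ) := by
    intro s
    obtain ⟨a, b, ha, hlt, hb, hall, hatta, hattb⟩ :=
      ang_minmax s hC.compact hC.interior_nonempty (hab s)
    have h1 := mirror h hC hlt ha hb hall hatta hattb (Or.inl rfl : a = a ∨ a = b)
    have h2 := mirror h hC hlt ha hb hall hatta hattb (Or.inr rfl : b = a ∨ b = b)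
    have hbe : b = Real.pi - a := by
      rcases h1 with h1 | h1
      · rcases h2 with h2 | h2
        · linarith
        · exfalso; linarith
      · linarith
    refine ⟨a, ha, by linarith, fun c hc => (hall c hc).1, fun c hc => ?_, hatta, ?_⟩
    · rw [← hbe]; exact (hall c hc).2
    · rw [← hbe]; exact hattb
  choose θ h1 h2 h3 h4 h5 h6 using key
  exact ⟨θ, ⟨h1, h2, h3, h4, h5, h6, hab⟩⟩

end Pool.Agent.Helper606.CA
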