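import Pool.Agent.Helper606.CA.Defs
import Pool.Agent.Helper606.CA.P_gam_deriv

set_option autoImplicit false

namespace Pool.Agent.Helper606.CA
open Complex Set


theorem gam_dist {κ : ℝ → ℝ} (hc : Continuous κ) (s s' : ℝ) : ‖gam κ s' - gam κ s‖ ≤ |s' - s| := by
  have h := Convex.norm_image_sub_le_of_norm_hasDerivWithin_le (f := gam κ)
    (f' := fun s => exp ((psi κ s : ℂ) * I)) (C := 1) (s := (Set.univ : Set ℝ)) (x := s) (y := s')
    (fun x _ => (gam_deriv hc x).hasDerivWithinAt)
    (fun x _ => (Complex.norm_exp_ofReal_mul_I (psi κ x)).le) convex_univ (Set.mem_univ _)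
    (Set.mem_univ _)
  rwa [one_mul, Real.norm_eq_abs] at h

end Pool.Agent.Helper606.CA
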