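import Pool.Agent.Helper606.CA.Defs
import Pool.Agent.Helper606.CA.P_ht_pos

set_option autoImplicit false

namespace Pool.Agent.Helper606.CA
open Complex Set


theorem gam_inj_aux {κ : ℝ → ℝ} {P : ℝ} (h : Closed κ P) {s s' : ℝ} (hs : 0 ≤ s)
    (hs' : s' < 2 * P) (hlt : s < s') (heq : gam κ s = gam κ s') : False := by
  have h1 := ht_pos h hlt (by linarith)
  rw [← heq] at h1
  have h2 : ht κ (psi κ s) s (gam κ s) = 0 := by
    simp [ht]
  rw [h2] at h1
  exact lt_irrefl _ h1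

theorem gam_inj {κ : ℝ → ℝ} {P : ℝ} (h : Closed κ P) : InjOn (gam κ) (Ico 0 (2 * P)) := by
  intro s hs s' hs' heq
  rcases lt_trichotomy s s' with hlt | hlt | hlt
  · exact (gam_inj_aux h hs.1 hs'.2 hlt heq).elim
  · exact hlt
  · exact (gam_inj_aux h hs'.1 hs.2 hlt heq.symm).elim

end Pool.Agent.Helper606.CA
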