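import Pool.Agent.Helper606.CA.Defs
import Pool.Agent.Helper606.CA.P_ff_bounds

set_option autoImplicit false

namespace Pool.Agent.Helper606.CA
open Complex Set


theorem kap_le (s : ℝ) : kap s ≤ 2 := by
  unfold kap
  exact (ff_bounds _).2

end Pool.Agent.Helper606.CA
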