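import Pool.Agent.Helper606.CA.Defs
import Pool.Agent.Helper606.CA.P_psi_deriv
import Pool.Agent.Helper606.CA.P_kap_cont
import Pool.Agent.Helper606.CA.P_kap_le

set_option autoImplicit false

namespace Pool.Agent.Helper606.CA
open Complex Set


theorem psi_le {s s' : ℝ} (h : s ≤ s') : psi kap s' - psi kap s ≤ 2 * (s' - s) := by
  have hd : ∀ x, HasDerivAt (psi kap) (kap x) x := fun x => psi_deriv kap_cont x
  have hm : Antitone (fun x => psi kap x - 2 * x) := by
    apply antitone_of_deriv_nonpos
    · intro x
      exact ((hd x).sub ((hasDerivAt_id x).const_mul 2)).differentiableAt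
    · intro x
      have h1 : HasDerivAt (fun x => psi kap x - 2 * x) (kap x - 2 * 1) x :=
        (hd x).sub ((hasDerivAt_id x).const_mul 2)
      rw [h1.deriv]
      have := kap_le x
      linarith
  have h2 := hm h
  simp only at h2
  linarith

end Pool.Agent.Helper606.CA
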