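import Pool.Agent.Helper606.CA.Defs
import Pool.Agent.Helper606.CA.P_angle_lip
import Pool.Agent.Helper606.CA.P_pp_facts
import Pool.Agent.Helper606.CA.P_kap_cont
import Pool.Agent.Helper606.CA.P_kap_closed
import Pool.Agent.Helper606.CA.P_psi_le
import Pool.Agent.Helper606.CA.P_chain

set_option autoImplicit false

namespace Pool.Agent.Helper606.CA
open Complex Set


theorem no_angle {C : Set ℂ} {θ : ℝ → ℝ} (h : IsAngle kap C θ)
    (hC : ∀ c ∈ C, ‖c - gam kap 1‖ ≤ 2 * hh) : False := by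
  have hpos := h.pos (3/2)
  obtain ⟨j, hj⟩ := exists_pow_lt_of_lt_one (show (0:ℝ) < θ (3/2) / 2 by linarith)
    (show (1/2:ℝ) < 1 by norm_num)
  have hlt : pp j < 3/2 := by
    have h1 := (pp_facts.2.2 j).2
    have h2 := pp_facts.1 j
    linarith
  have h1 := angle_lip kap_cont kap_closed.pos h hlt
  have h2 := psi_le hlt.le
  have h3 := chain h hC j
  have h4 := (abs_le.1 h1).2
  have h5 : 3/2 - pp j = (1/2:ℝ)^(j+1) := by unfold pp; ring
  rw [h5] at h2
  have h6 : (1/2:ℝ)^(2*j+14) ≤ (1/2:ℝ)^j :=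
    pow_le_pow_of_le_one (by norm_num) (by norm_num) (by omega)
  have h7 : 2 * (1/2:ℝ)^(j+1) = (1/2:ℝ)^j := by rw [pow_succ]; ring
  linarith

end Pool.Agent.Helper606.CA
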