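import Pool.Agent.Helper606.CA.Defs
import Pool.Agent.Helper606.CA.P_psi_deriv
import Pool.Agent.Helper606.CA.P_psi_mono
import Pool.Agent.Helper606.CA.P_psi_per

set_option autoImplicit false

namespace Pool.Agent.Helper606.CA
open Complex Set


theorem psi_surj_near {κ : ℝ → ℝ} {P : ℝ} (h : Closed κ P) (s y : ℝ) :
    ∃ (u : ℝ) (n : ℤ), |u - s| ≤ P ∧ psi κ u = y + 2 * Real.pi * n := by
  have hpi := Real.pi_pos
  have hP := h.P_pos
  have h1 : psi κ (s + P) = psi κ s + Real.pi := psi_per h s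
  have h2 : psi κ (s - P) = psi κ s - Real.pi := by
    have := psi_per h (s - P)
    rw [sub_add_cancel] at this
    linarith
  have hcont : Continuous (psi κ) :=
    continuous_iff_continuousAt.2 (fun x => (psi_deriv h.cont x).continuousAt)
  obtain ⟨n, hn⟩ : ∃ n : ℤ, n = ⌈(psi κ s - Real.pi - y) / (2 * Real.pi)⌉ := ⟨_, rfl⟩
  have h3 : psi κ s - Real.pi ≤ y + 2 * Real.pi * n := by
    have := Int.le_ceil ((psi κ s - Real.pi - y) / (2 * Real.pi))
    rw [← hn, div_le_iff₀ (by positivity)] at this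
    linarith
  have h4 : y + 2 * Real.pi * n ≤ psi κ s + Real.pi := by
    have := Int.ceil_lt_add_one ((psi κ s - Real.pi - y) / (2 * Real.pi))
    rw [← hn, ← sub_lt_iff_lt_add, lt_div_iff₀ (by positivity)] at this
    linarith
  have hmem : y + 2 * Real.pi * n ∈ Set.Icc (psi κ (s - P)) (psi κ (s + P)) := by
    rw [h1, h2]
    exact ⟨h3, h4⟩
  obtain ⟨u, hu, hu2⟩ := intermediate_value_Icc (by linarith : s - P ≤ s + P)
    hcont.continuousOn hmem
  refine ⟨u, n, ?_, hu2⟩
  rw [abs_le]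
  constructor
  · linarith [hu.1]
  · linarith [hu.2]

end Pool.Agent.Helper606.CA
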