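import Pool.Agent.Helper606.CA.Defs
import Pool.Agent.Helper606.CA.P_psi_surj_near
import Pool.Agent.Helper606.CA.P_ht_int
import Pool.Agent.Helper606.CA.P_ht_add
import Pool.Agent.Helper606.CA.P_gam_dist

set_option autoImplicit false

namespace Pool.Agent.Helper606.CA
open Complex Set


theorem tab_dist {κ : ℝ → ℝ} {P : ℝ} (h : Closed κ P) (s : ℝ) {z : ℂ} (hz : z ∈ Tab κ) :
    ‖z - gam κ s‖ ≤ P := by
  obtain ⟨u, n, hu, hn⟩ := psi_surj_near h s (arg (z - gam κ s) + Real.pi / 2)
  have h0 := hz u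
  rw [ht_add κ (psi κ u) u s z] at h0
  have h1 : ht κ (psi κ u) s z = -‖z - gam κ s‖ := by
    unfold ht
    have hw : (‖z - gam κ s‖ : ℂ) * exp (arg (z - gam κ s) * I) = z - gam κ s :=
      Complex.norm_mul_exp_arg_mul_I _
    have he : exp (-((psi κ u : ℂ) * I)) * (z - gam κ s) =
        (‖z - gam κ s‖ : ℂ) * exp (((arg (z - gam κ s) - psi κ u : ℝ) : ℂ) * I) := by
      calc exp (-((psi κ u : ℂ) * I)) * (z - gam κ s)
          = exp (-((psi κ u : ℂ) * I)) * ((‖z - gam κ s‖ : ℂ) * exp (arg (z - gam κ s) * I)) := by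
            rw [hw]
        _ = (‖z - gam κ s‖ : ℂ) * (exp (arg (z - gam κ s) * I) * exp (-((psi κ u : ℂ) * I))) := by
            ring
        _ = _ := by
            rw [← Complex.exp_add]
            congr 2
            push_cast
            ring
    rw [he, Complex.im_ofReal_mul, Complex.exp_ofReal_mul_I_im, hn]
    have e : arg (z - gam κ s) - (arg (z - gam κ s) + Real.pi / 2 + 2 * Real.pi * n) =
        -(Real.pi / 2) - n * (2 * Real.pi) := by ring
    rw [e, Real.sin_sub_int_mul_two_pi, Real.sin_neg, Real.sin_pi_div_two]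
    ring
  have h2 : ht κ (psi κ u) u (gam κ s) ≤ P := by
    unfold ht
    have e1 : (exp (-((psi κ u : ℂ) * I)) * (gam κ s - gam κ u)).im ≤
        ‖exp (-((psi κ u : ℂ) * I)) * (gam κ s - gam κ u)‖ := (Complex.abs_im_le_norm _).trans' (le_abs_self _)
    have e2 : ‖exp (-((psi κ u : ℂ) * I))‖ = 1 := by
      rw [← neg_mul, ← Complex.ofReal_neg]
      exact Complex.norm_exp_ofReal_mul_I _
    rw [norm_mul, e2, one_mul] at e1
    have e3 := gam_dist h.cont u s
    have e4 : |s - u| ≤ P := by rw [abs_sub_comm]; exact hu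
    linarith
  linarith

end Pool.Agent.Helper606.CA
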