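import Pool.Agent.Helper606.CA.Defs
import Pool.Agent.Helper606.CA.P_tab_dist
import Pool.Agent.Helper606.CA.P_exists_angle
import Pool.Agent.Helper606.CA.P_kap_closed
import Pool.Agent.Helper606.CA.P_no_angle

set_option autoImplicit false

namespace Pool.Agent.Helper606.CA
open Complex Set


theorem no_caustic (C : Set ℂ) : ¬ IsConvexCaustic (Tab kap) (gam kap) (psi kap) C := by
  intro hC
  obtain ⟨θ, hθ⟩ := exists_angle kap_closed hC
  exact no_angle hθ (fun c hc => tab_dist kap_closed 1 (interior_subset (hC.subset hc)))

end Pool.Agent.Helper606.CA
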