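import Pool.Agent.Helper606.CA.Defs
import Pool.Agent.Helper606.CA.P_psi_deriv
import Pool.Agent.Helper606.CA.P_gam_deriv
import Pool.Agent.Helper606.CA.P_psi_per
import Pool.Agent.Helper606.CA.P_gam_per

set_option autoImplicit false

namespace Pool.Agent.Helper606.CA
open Complex Set


theorem strict_int {κ : ℝ → ℝ} {P : ℝ} (h : Closed κ P) {z : ℂ}
    (hz : ∀ s, 0 < ht κ (psi κ s) s z) : z ∈ interior (Tab κ) := by
  have hpsi : Continuous (psi κ) :=
    continuous_iff_continuousAt.2 fun s => (psi_deriv h.cont s).continuousAt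
  have hgam : Continuous (gam κ) :=
    continuous_iff_continuousAt.2 fun s => (gam_deriv h.cont s).continuousAt
  have hcont : Continuous (fun s => ht κ (psi κ s) s z) := by
    unfold ht
    exact Complex.continuous_im.comp ((Complex.continuous_exp.comp
      ((Complex.continuous_ofReal.comp hpsi).mul continuous_const).neg).mul
      (continuous_const.sub hgam))
  have hper : Function.Periodic (fun s => ht κ (psi κ s) s z) (2 * P) := by
    intro s
    have h1 : psi κ (s + 2 * P) = psi κ s + 2 * Real.pi := by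
      rw [show s + 2 * P = (s + P) + P by ring, psi_per h, psi_per h]; ring
    simp only [ht]
    rw [h1, gam_per h]
    have h2 : Complex.exp (-(((psi κ s + 2 * Real.pi : ℝ) : ℂ) * I))
        = Complex.exp (-((psi κ s : ℂ) * I)) := by
      have h3 : -(((psi κ s + 2 * Real.pi : ℝ) : ℂ) * I)
          = -((psi κ s : ℂ) * I) - 2 * Real.pi * I := by
        push_cast; ring
      rw [h3, Complex.exp_sub, Complex.exp_two_pi_mul_I, div_one]
    rw [h2]
  have hP : 0 < 2 * P := by have := h.P_pos; linarith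
  obtain ⟨s0, hs0, hmin⟩ := (isCompact_Icc (a := (0:ℝ)) (b := 2 * P)).exists_isMinOn
    ⟨0, ⟨le_rfl, hP.le⟩⟩ hcont.continuousOn
  set m := ht κ (psi κ s0) s0 z with hm
  have hmpos : 0 < m := hz s0
  have hall : ∀ s, m ≤ ht κ (psi κ s) s z := by
    intro s
    obtain ⟨y, hy, hys⟩ := hper.exists_mem_Ico₀ hP s
    have h1 : ht κ (psi κ s) s z = ht κ (psi κ y) y z := hys
    rw [h1]
    exact hmin ⟨hy.1, hy.2.le⟩
  rw [mem_interior_iff_mem_nhds]
  refine Filter.mem_of_superset (Metric.ball_mem_nhds z hmpos) ?_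
  intro z' hz' s
  have h1 : ht κ (psi κ s) s z' = ht κ (psi κ s) s z
      + (Complex.exp (-((psi κ s : ℂ) * I)) * (z' - z)).im := by
    simp only [ht]
    rw [← Complex.add_im]
    congr 1
    ring
  have h2 : |(Complex.exp (-((psi κ s : ℂ) * I)) * (z' - z)).im| ≤ ‖z' - z‖ := by
    refine (Complex.abs_im_le_norm _).trans ?_
    rw [norm_mul]
    have h3 : -((psi κ s : ℂ) * I) = ((-(psi κ s) : ℝ) : ℂ) * I := by push_cast; ring
    rw [h3, Complex.norm_exp_ofReal_mul_I, one_mul]
  have h4 : ‖z' - z‖ < m := by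
    rw [← dist_eq_norm]; exact hz'
  have h5 := hall s
  have h6 := (abs_le.1 h2).1
  rw [h1]
  linarith

end Pool.Agent.Helper606.CA
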