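import Pool.Agent.Helper606.CA.Defs

set_option autoImplicit false

namespace Pool.Agent.Helper606.CA
open Complex Set


theorem tab_closed (κ : ℝ → ℝ) : IsClosed (Tab κ) := by
  have : Tab κ = ⋂ s : ℝ, {z : ℂ | 0 ≤ ht κ (psi κ s) s z} := by
    ext z; simp [Tab]
  rw [this]
  refine isClosed_iInter fun s => isClosed_le continuous_const ?_
  unfold ht
  exact Complex.continuous_im.comp (continuous_const.mul (continuous_id.sub continuous_const))

end Pool.Agent.Helper606.CA
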