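import Pool.Agent.Helper606.CA.Defs
import Pool.Agent.Helper606.CA.P_psi_deriv
import Pool.Agent.Helper606.CA.P_gam_deriv
import Pool.Agent.Helper606.CA.P_psi_mono
import Pool.Agent.Helper606.CA.P_ht_int
import Pool.Agent.Helper606.CA.P_ht_add

set_option autoImplicit false

namespace Pool.Agent.Helper606.CA
open Complex Set


theorem touch_unique {κ : ℝ → ℝ} {P : ℝ} (h : Closed κ P) {z : ℂ} {s : ℝ} (hz : z ∈ Tab κ)
    (h0 : ht κ (psi κ s) s z = 0) : z = gam κ s := by
  have hψ := (psi_deriv h.cont s).ofReal_comp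
  have hγ := gam_deriv h.cont s
  have hE : HasDerivAt (fun y : ℝ => exp (-((psi κ y : ℂ) * I)))
      (exp (-((psi κ s : ℂ) * I)) * (-((κ s : ℂ) * I))) s :=
    ((hψ.mul_const I).neg).cexp
  have hF : HasDerivAt (fun y : ℝ => exp (-((psi κ y : ℂ) * I)) * (z - gam κ y))
      (exp (-((psi κ s : ℂ) * I)) * (-((κ s : ℂ) * I)) * (z - gam κ s) +
        exp (-((psi κ s : ℂ) * I)) * (-exp ((psi κ s : ℂ) * I))) s :=
    hE.mul (hγ.const_sub z)
  have hf : HasDerivAt (fun y : ℝ => ht κ (psi κ y) y z)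
      ((exp (-((psi κ s : ℂ) * I)) * (-((κ s : ℂ) * I)) * (z - gam κ s) +
        exp (-((psi κ s : ℂ) * I)) * (-exp ((psi κ s : ℂ) * I))).im) s := by
    have h1 := (Complex.imCLM.hasFDerivAt
      (x := exp (-((psi κ s : ℂ) * I)) * (z - gam κ s))).comp_hasDerivAt s hF
    exact h1
  have hmin : IsLocalMin (fun y : ℝ => ht κ (psi κ y) y z) s := by
    refine Filter.Eventually.of_forall fun y => ?_
    simp only
    rw [h0]
    exact hz y
  have h2 := hmin.hasDerivAt_eq_zero hf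
  have h3 : exp (-((psi κ s : ℂ) * I)) * (-exp ((psi κ s : ℂ) * I)) = -1 := by
    rw [mul_neg, ← Complex.exp_add, neg_add_cancel, Complex.exp_zero]
  have h4 : exp (-((psi κ s : ℂ) * I)) * (-((κ s : ℂ) * I)) * (z - gam κ s) =
      -((κ s : ℂ) * (I * (exp (-((psi κ s : ℂ) * I)) * (z - gam κ s)))) := by ring
  rw [h3, h4] at h2
  have h5 : (exp (-((psi κ s : ℂ) * I)) * (z - gam κ s)).im = 0 := h0
  have h6 : κ s * (exp (-((psi κ s : ℂ) * I)) * (z - gam κ s)).re = 0 := by
    rw [Complex.add_im, Complex.neg_im, Complex.re_ofReal_mul |> fun _ => Complex.im_ofReal_mul,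
      Complex.neg_im, Complex.one_im, Complex.I_mul_im] at h2
    linarith
  have h7 : (exp (-((psi κ s : ℂ) * I)) * (z - gam κ s)).re = 0 := by
    rcases mul_eq_zero.mp h6 with h8 | h8
    · exact absurd h8 (h.pos s).ne'
    · exact h8
  have h8 : exp (-((psi κ s : ℂ) * I)) * (z - gam κ s) = 0 := Complex.ext h7 h5
  rcases mul_eq_zero.mp h8 with h9 | h9
  · exact absurd h9 (Complex.exp_ne_zero _)
  · exact sub_eq_zero.mp h9

end Pool.Agent.Helper606.CA
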