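import Pool.Agent.Helper606.CA.Defs
import Pool.Agent.Helper606.CA.P_gam_per
import Pool.Agent.Helper606.CA.P_gam_mem
import Pool.Agent.Helper606.CA.P_tab_closed
import Pool.Agent.Helper606.CA.P_int_strict
import Pool.Agent.Helper606.CA.P_strict_int
import Pool.Agent.Helper606.CA.P_touch_unique

set_option autoImplicit false

namespace Pool.Agent.Helper606.CA
open Complex Set


theorem tab_frontier {κ : ℝ → ℝ} {P : ℝ} (h : Closed κ P) : range (gam κ) = frontier (Tab κ) := by
  rw [(tab_closed κ).frontier_eq]
  ext z
  constructor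
  · rintro ⟨s, rfl⟩
    refine ⟨gam_mem h s, fun hs => ?_⟩
    have h1 := int_strict hs s
    unfold ht at h1
    simp at h1
  · rintro ⟨hz, hn⟩
    by_contra hcon
    apply hn
    refine strict_int h fun s => ?_
    refine lt_of_le_of_ne (hz s) fun h0 => ?_
    exact hcon ⟨s, (touch_unique h hz h0.symm).symm⟩

end Pool.Agent.Helper606.CA
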