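import Pool.Agent.Helper606.CA.Defs
import Pool.Agent.Helper606.CA.P_psi_deriv
import Pool.Agent.Helper606.CA.P_gam_deriv
import Pool.Agent.Helper606.CA.P_gam_per
import Pool.Agent.Helper606.CA.P_gam_inj
import Pool.Agent.Helper606.CA.P_tab_frontier

set_option autoImplicit false

namespace Pool.Agent.Helper606.CA
open Complex Set


theorem tab_curve {κ : ℝ → ℝ} {P : ℝ} (h : Closed κ P) :
    BoundaryCurve (Tab κ) (gam κ) (psi κ) κ (2 * P) where
  L_pos := mul_pos two_pos h.P_pos
  periodic := gam_per h
  inj := gam_inj h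
  range_eq := tab_frontier h
  deriv_γ := fun s => gam_deriv h.cont s
  deriv_ψ := fun s => psi_deriv h.cont s

end Pool.Agent.Helper606.CA
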