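import Pool.Agent.Helper606.CA.Defs
import Pool.Agent.Helper606.CA.P_gam_per
import Pool.Agent.Helper606.CA.P_ht_pos
import Pool.Agent.Helper606.CA.P_gam_mem

set_option autoImplicit false

namespace Pool.Agent.Helper606.CA
open Complex Set


theorem mid_strict {κ : ℝ → ℝ} {P : ℝ} (h : Closed κ P) (s : ℝ) :
    0 < ht κ (psi κ s) s ((gam κ 0 + gam κ P) / 2) := by
  have hP := h.P_pos
  have hper : Function.Periodic (gam κ) (2 * P) := fun x => gam_per h x
  have hA : ∀ x, 0 < ht κ (psi κ s) s (gam κ x) ∨ gam κ x = gam κ s := by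
    intro x
    obtain ⟨y, hy, hxy⟩ := hper.exists_mem_Ico (by linarith) x s
    rcases eq_or_lt_of_le hy.1 with h1 | h1
    · right
      rw [hxy, h1]
    · left
      rw [hxy]
      exact ht_pos h h1 hy.2
  have hlin : ht κ (psi κ s) s ((gam κ 0 + gam κ P) / 2)
      = (ht κ (psi κ s) s (gam κ 0) + ht κ (psi κ s) s (gam κ P)) / 2 := by
    unfold ht
    have e : exp (-((psi κ s : ℂ) * I)) * ((gam κ 0 + gam κ P) / 2 - gam κ s)
        = ((1/2 : ℝ) : ℂ) * (exp (-((psi κ s : ℂ) * I)) * (gam κ 0 - gam κ s)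
          + exp (-((psi κ s : ℂ) * I)) * (gam κ P - gam κ s)) := by
      push_cast
      ring
    rw [e, Complex.im_ofReal_mul, Complex.add_im]
    ring
  have h0 : 0 ≤ ht κ (psi κ s) s (gam κ 0) := gam_mem h 0 s
  have h1 : 0 ≤ ht κ (psi κ s) s (gam κ P) := gam_mem h P s
  rw [hlin]
  rcases hA 0 with a | a
  · linarith
  · rcases hA P with b | b
    · linarith
    · exfalso
      have hp := ht_pos h (s := 0) (s' := P) hP (by linarith)
      have e : gam κ P = gam κ 0 := by rw [b, a]
      unfold ht at hp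
      rw [e, sub_self, mul_zero] at hp
      simp at hp

end Pool.Agent.Helper606.CA
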