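import Pool.Agent.Helper606.CA.Defs

set_option autoImplicit false

namespace Pool.Agent.Helper606.CA
open Complex Set


theorem tab_convex (κ : ℝ → ℝ) : Convex ℝ (Tab κ) := by
  intro x hx y hy a b ha hb hab s
  have hx' := hx s
  have hy' := hy s
  have key : ht κ (psi κ s) s (a • x + b • y) =
      a * ht κ (psi κ s) s x + b * ht κ (psi κ s) s y := by
    have habC : (a : ℂ) + (b : ℂ) = 1 := by exact_mod_cast hab
    unfold ht
    rw [← Complex.im_ofReal_mul, ← Complex.im_ofReal_mul, ← Complex.add_im]
    congr 1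
    have e1 : gam κ s = ((a : ℂ) + (b : ℂ)) * gam κ s := by rw [habC, one_mul]
    have e2 : a • x + b • y - gam κ s = (a : ℂ) * (x - gam κ s) + (b : ℂ) * (y - gam κ s) := by
      conv_lhs => rw [e1]
      rw [Complex.real_smul, Complex.real_smul]
      ring
    rw [e2]
    ring
  rw [key]
  exact add_nonneg (mul_nonneg ha hx') (mul_nonneg hb hy')

end Pool.Agent.Helper606.CA
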