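import Pool.Agent.Helper606.CA.Defs
import Pool.Agent.Helper606.CA.P_gam_mem
import Pool.Agent.Helper606.CA.P_tab_closed
import Pool.Agent.Helper606.CA.P_tab_convex
import Pool.Agent.Helper606.CA.P_tab_dist
import Pool.Agent.Helper606.CA.P_strict_int
import Pool.Agent.Helper606.CA.P_mid_strict

set_option autoImplicit false

namespace Pool.Agent.Helper606.CA
open Complex Set


theorem tab_table {κ : ℝ → ℝ} {P : ℝ} (h : Closed κ P) : IsTable (Tab κ) := by
  refine ⟨?_, tab_convex κ, ⟨_, strict_int h (mid_strict h)⟩⟩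
  refine Metric.isCompact_of_isClosed_isBounded (tab_closed κ) ?_
  refine (Metric.isBounded_closedBall (x := gam κ 0) (r := P)).subset ?_
  intro z hz
  rw [Metric.mem_closedBall, dist_eq_norm]
  exact tab_dist h 0 hz

end Pool.Agent.Helper606.CA
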