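import Pool.Agent.Helper606.CA.Defs
import Pool.Agent.Helper606.CA.P_tab_table
import Pool.Agent.Helper606.CA.P_tab_curve
import Pool.Agent.Helper606.CA.P_kap_cont
import Pool.Agent.Helper606.CA.P_kap_closed
import Pool.Agent.Helper606.CA.P_no_caustic

set_option autoImplicit false

namespace Pool.Agent.Helper606.CA
open Complex Set


theorem main : ¬ PP 0 ∧ ∀ m : ℕ, PP m → 1 ≤ m := by
  have h0 : ¬ PP 0 := by
    intro hP
    obtain ⟨C, hC⟩ := hP (Tab kap) (gam kap) (psi kap) kap (2 * (2 * hh))
      (tab_table kap_closed) (tab_curve kap_closed) (by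
        have h1 : ContDiff ℝ 0 kap := contDiff_zero.2 kap_cont
        exact_mod_cast h1) kap_closed.pos
    exact no_caustic C hC
  refine ⟨h0, fun m hm => ?_⟩
  rcases Nat.eq_zero_or_pos m with h | h
  · rw [h] at hm
    exact absurd hm h0
  · exact h

end Pool.Agent.Helper606.CA
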